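import Mathlib

set_option autoImplicit false

/-! Structure of the solutions of the word equation X u Y = Y v X. -/

namespace Pool.Agent.WEq

variable {α : Type*}

/-- (X, Y) solves the word equation X u Y = Y v X. -/
def Sol (u v X Y : List α) : Prop := X ++ u ++ Y = Y ++ v ++ X

/-- the two moves on solutions: X := Y v X, or Y := X u Y -/
def mv (u v : List α) (b : Bool) (z : List α × List α) : List α × List α :=
  if b then (z.2 ++ v ++ z.1, z.2) else (z.1, z.1 ++ u ++ z.2)

/-- a sequence of moves, the head of the list first -/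
def run (u v : List α) (π : List Bool) (z : List α × List α) : List α × List α :=
  π.foldl (fun z b => mv u v b z) z

theorem sol_mv {u v : List α} (b : Bool) {z : List α × List α} (h : Sol u v z.1 z.2) :
    Sol u v (mv u v b z).1 (mv u v b z).2 := by
  unfold Sol at *
  cases b
  · simp only [mv, Bool.false_eq_true, if_false]
    calc z.1 ++ u ++ (z.1 ++ u ++ z.2) = z.1 ++ u ++ (z.2 ++ v ++ z.1) := by rw [h]
      _ = z.1 ++ u ++ z.2 ++ v ++ z.1 := by simp
  · simp only [mv, if_true]
    calc z.2 ++ v ++ z.1 ++ u ++ z.2 = z.2 ++ v ++ (z.1 ++ u ++ z.2) := by simp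
      _ = z.2 ++ v ++ (z.2 ++ v ++ z.1) := by rw [h]

theorem sol_run {u v : List α} (π : List Bool) {z : List α × List α} (h : Sol u v z.1 z.2) :
    Sol u v (run u v π z).1 (run u v π z).2 := by
  induction π generalizing z with
  | nil => exact h
  | cons b π ih => exact ih (sol_mv b h)

theorem run_append {u v : List α} (π ρ : List Bool) (z : List α × List α) :
    run u v (π ++ ρ) z = run u v ρ (run u v π z) := by
  simp [run]

theorem sol_len {u v X Y : List α} (h : Sol u v X Y) : u.length = v.length := by
  have := congrArg List.length h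
  simp only [List.length_append] at this
  omega

theorem sol_symm {u v X Y : List α} (h : Sol u v X Y) : Sol v u Y X := h.symm

/-- descent, first variable long -/
theorem descent {u v X Y : List α} (h : Sol u v X Y) (hl : Y.length + v.length ≤ X.length) :
    ∃ X', X = Y ++ v ++ X' ∧ Sol u v X' Y := by
  have h0 : X ++ (u ++ Y) = (Y ++ v) ++ X := by simpa [Sol] using h
  have h1 : (Y ++ v) <+: X := by
    have : (Y ++ v) <+: X ++ (u ++ Y) := h0 ▸ List.prefix_append _ _
    exact List.prefix_of_prefix_length_le this (List.prefix_append _ _) (by simpa using hl)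
  obtain ⟨X', hX⟩ := h1
  refine ⟨X', hX.symm, ?_⟩
  unfold Sol at *
  rw [← hX] at h
  have : (Y ++ v) ++ (X' ++ u ++ Y) = (Y ++ v) ++ (Y ++ v ++ X') := by
    simpa using h
  exact List.append_cancel_left this

/-- descent, second variable long -/
theorem descent' {u v X Y : List α} (h : Sol u v X Y) (hl : X.length + u.length ≤ Y.length) :
    ∃ Y', Y = X ++ u ++ Y' ∧ Sol u v X Y' := by
  obtain ⟨Y', h1, h2⟩ := descent (sol_symm h) hl
  exact ⟨Y', h1, sol_symm h2⟩

/-- the base solutions -/
def pw (g : List α) : ℕ → List α
  | 0 => []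
  | k + 1 => g ++ pw g k

theorem pw_length (g : List α) (k : ℕ) : (pw g k).length = k * g.length := by
  induction k with
  | zero => simp [pw]
  | succ k ih => simp [pw, ih]; ring

def Base (u v : List α) (z : List α × List α) : Prop :=
  (u = v ∧ z.1 = z.2) ∨
  ∃ (g : List α) (k : ℕ) (Xb Yb : List α), z = (pw g k ++ Xb, pw g k ++ Yb) ∧
    Xb.length < 2 * u.length ∧ Yb.length < 2 * u.length ∧ 0 < g.length ∧ g.length ≤ u.length ∧
    ∀ i, Sol u v (pw g i ++ Xb) (pw g i ++ Yb)

/-- if g Y = Y w then Y = g^k Y0 with Y0 short and g Y0 = Y0 w -/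
theorem conj_struct (g w : List α) (hg : 0 < g.length) : ∀ (N : ℕ) (Y : List α), Y.length ≤ N →
    g ++ Y = Y ++ w → ∃ k Y0, Y = pw g k ++ Y0 ∧ Y0.length < g.length ∧ g ++ Y0 = Y0 ++ w := by
  intro N
  induction N with
  | zero =>
    intro Y hY h
    have : Y = [] := List.length_eq_zero_iff.mp (by omega)
    subst this
    exact ⟨0, [], by simp [pw], hg, h⟩
  | succ N ih =>
    intro Y hY h
    by_cases hl : Y.length < g.length
    · exact ⟨0, Y, by simp [pw], hl, h⟩
    · push Not at hl
      have h1 : g <+: Y := by
        have : g <+: Y ++ w := h ▸ List.prefix_append _ _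
        exact List.prefix_of_prefix_length_le this (List.prefix_append _ _) hl
      obtain ⟨Y', hY'⟩ := h1
      have h2 : g ++ Y' = Y' ++ w := by
        rw [← hY'] at h
        have : g ++ (g ++ Y') = g ++ (Y' ++ w) := by simpa using h
        exact List.append_cancel_left this
      have hlen : Y'.length ≤ N := by
        have := congrArg List.length hY'
        simp only [List.length_append] at this
        omega
      obtain ⟨k, Y0, h3, h4, h5⟩ := ih Y' hlen h2
      refine ⟨k + 1, Y0, ?_, h4, h5⟩
      rw [← hY', h3]
      simp [pw]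

theorem pw_conj {g w Y0 : List α} (h : g ++ Y0 = Y0 ++ w) (k : ℕ) :
    g ++ (pw g k ++ Y0) = (pw g k ++ Y0) ++ w := by
  induction k with
  | zero => simpa [pw] using h
  | succ k ih =>
    simp only [pw, List.append_assoc] at ih ⊢
    rw [ih]

/-- solutions with 0 ≤ |X| - |Y| < |u| -/
theorem base_of_close {u v X Y : List α} (h : Sol u v X Y) (h1 : Y.length ≤ X.length)
    (h2 : X.length < Y.length + u.length) : Base u v (X, Y) := by
  have hlen := sol_len h
  have h0 : X ++ (u ++ Y) = Y ++ (v ++ X) := by simpa [Sol] using h
  have hp : Y <+: X := by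
    have : Y <+: X ++ (u ++ Y) := h0 ▸ List.prefix_append _ _
    exact List.prefix_of_prefix_length_le this (List.prefix_append _ _) h1
  obtain ⟨w, hw⟩ := hp
  -- w u Y = v Y w
  have h3 : w ++ (u ++ Y) = v ++ (Y ++ w) := by
    rw [← hw] at h0
    have : Y ++ (w ++ (u ++ Y)) = Y ++ (v ++ (Y ++ w)) := by simpa using h0
    exact List.append_cancel_left this
  have hwl : w.length < u.length := by
    have := congrArg List.length hw
    simp only [List.length_append] at this
    omega
  by_cases hw0 : w = []
  · left
    subst hw0
    have h4 : u ++ Y = v ++ Y := by simpa using h3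
    refine ⟨List.append_cancel_right h4, ?_⟩
    simpa using hw.symm
  · right
    have hwpos : 0 < w.length := List.length_pos_iff.mpr hw0
    -- v = w v'
    have hv : w <+: v := by
      have : w <+: v ++ (Y ++ w) := h3 ▸ List.prefix_append _ _
      exact List.prefix_of_prefix_length_le this (List.prefix_append _ _) (by omega)
    obtain ⟨v', hv'⟩ := hv
    have h4 : u ++ Y = v' ++ (Y ++ w) := by
      rw [← hv'] at h3
      have : w ++ (u ++ Y) = w ++ (v' ++ (Y ++ w)) := by simpa using h3
      exact List.append_cancel_left this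
    have hv'l : v'.length ≤ u.length := by
      have := congrArg List.length hv'
      simp only [List.length_append] at this
      omega
    have hu : v' <+: u := by
      have : v' <+: u ++ Y := h4 ▸ List.prefix_append _ _
      exact List.prefix_of_prefix_length_le this (List.prefix_append _ _) hv'l
    obtain ⟨g, hg⟩ := hu
    have h5 : g ++ Y = Y ++ w := by
      rw [← hg] at h4
      have : v' ++ (g ++ Y) = v' ++ (Y ++ w) := by simpa using h4
      exact List.append_cancel_left this
    have hgw : g.length = w.length := by
      have := congrArg List.length h5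
      simp only [List.length_append] at this
      omega
    obtain ⟨k, Y0, h6, h7, h8⟩ := conj_struct g w (by omega) Y.length Y le_rfl h5
    refine ⟨g, k, Y0 ++ w, Y0, ?_, ?_, ?_, by omega, by omega, ?_⟩
    · rw [← hw, h6]
      simp
    · simp only [List.length_append]; omega
    · omega
    · intro i
      have h9 := pw_conj h8 i
      unfold Sol
      have e1 : v = w ++ v' := hv'.symm
      have e2 : u = v' ++ g := hg.symm
      rw [e1, e2]
      have h10 : g ++ (pw g i ++ Y0) = pw g i ++ (Y0 ++ w) := by simpa using h9
      calc pw g i ++ (Y0 ++ w) ++ (v' ++ g) ++ (pw g i ++ Y0)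
          = pw g i ++ (Y0 ++ w) ++ v' ++ (g ++ (pw g i ++ Y0)) := by simp
        _ = pw g i ++ (Y0 ++ w) ++ v' ++ (pw g i ++ (Y0 ++ w)) := by rw [h10]
        _ = pw g i ++ Y0 ++ (w ++ v') ++ (pw g i ++ (Y0 ++ w)) := by simp

theorem base_symm {u v X Y : List α} (huv : u.length = v.length) (h : Base v u (Y, X)) :
    Base u v (X, Y) := by
  rcases h with ⟨h1, h2⟩ | ⟨g, k, Xb, Yb, h1, h2, h3, h4, h5, h6⟩
  · exact Or.inl ⟨h1.symm, h2.symm⟩
  · right
    have e1 : Y = pw g k ++ Xb := congrArg Prod.fst h1
    have e2 : X = pw g k ++ Yb := congrArg Prod.snd h1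
    exact ⟨g, k, Yb, Xb, by rw [e1, e2], by omega, by omega, h4, by omega,
      fun i => sol_symm (h6 i)⟩

/-- every solution is reached from a base solution by moves -/
theorem structure_thm {u v : List α} (hu : u ≠ []) : ∀ (N : ℕ) (X Y : List α),
    X.length + Y.length ≤ N → Sol u v X Y →
    ∃ π z, Base u v z ∧ run u v π z = (X, Y) := by
  intro N
  induction N with
  | zero =>
    intro X Y hN h
    have hup : 0 < u.length := List.length_pos_iff.mpr hu
    exact ⟨[], (X, Y), base_of_close h (by omega) (by omega), rfl⟩
  | succ N ih =>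
    intro X Y hN h
    have hlen := sol_len h
    have hup : 0 < u.length := List.length_pos_iff.mpr hu
    by_cases h1 : Y.length + v.length ≤ X.length
    · obtain ⟨X', hX, hs⟩ := descent h h1
      have hl : X.length = Y.length + v.length + X'.length := by
        rw [hX]; simp; ring
      obtain ⟨π, z, hb, hr⟩ := ih X' Y (by omega) hs
      refine ⟨π ++ [true], z, hb, ?_⟩
      rw [run_append, hr]
      simp [run, mv, hX]
    · by_cases h2 : X.length + u.length ≤ Y.length
      · obtain ⟨Y', hY, hs⟩ := descent' h h2
        have hl : Y.length = X.length + u.length + Y'.length := by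
          rw [hY]; simp; ring
        obtain ⟨π, z, hb, hr⟩ := ih X Y' (by omega) hs
        refine ⟨π ++ [false], z, hb, ?_⟩
        rw [run_append, hr]
        simp [run, mv, hY]
      · refine ⟨[], (X, Y), ?_, rfl⟩
        by_cases h3 : Y.length ≤ X.length
        · exact base_of_close h h3 (by omega)
        · exact base_symm hlen (base_of_close (sol_symm h) (by omega) (by omega))

end Pool.Agent.WEq
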