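import Mathlib

set_option autoImplicit false

/-! The finite state table behind the Jacobi symbol of the lengths of the solutions of
X a b Y = Y b a X. A state holds the images (u, v) of X and of Y under the morphism into the affine
group modulo 32, the two lengths (plus 2) modulo 4, and one sign bit. -/

namespace Pool.Agent.WEq.Jac

abbrev St := ℕ × ℕ × ℕ × ℕ × ℕ × ℕ × ℕ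

/-- reciprocity bit -/
def eb (a b : ℕ) : ℕ := if a % 4 = 3 ∧ b % 4 = 3 then 1 else 0

/-- sign bit of the symbol of -1 -/
def db (b : ℕ) : ℕ := if b % 4 = 3 then 1 else 0

def pm (p q : ℕ × ℕ) : ℕ × ℕ := (p.1 * q.1 % 32, (p.1 * q.2 + p.2) % 32)

def stA : St → St
  | (x1, x2, y1, y2, L, l, c) =>
    let r := pm (pm (pm (y1, y2) (13, 2)) (3, 0)) (x1, x2)
    let n := (L + l) % 4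
    (r.1, r.2, y1, y2, n, l,
      (c + (if l % 2 = 1 then (if L % 2 = 0 then eb l n else eb l L) else db n + eb L n)) % 2)

def stB : St → St
  | (x1, x2, y1, y2, L, l, c) =>
    let r := pm (pm (pm (x1, x2) (3, 0)) (13, 2)) (y1, y2)
    let n := (L + l) % 4
    (x1, x2, r.1, r.2, L, n,
      (c + (if L % 2 = 1 then 0 else db n + eb l n)) % 2)

def tab : List St := [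
  (11, 0, 5, 22, 1, 1, 0),
  (1, 0, 5, 22, 2, 1, 0),
  (11, 0, 1, 0, 1, 2, 0),
  (3, 0, 5, 22, 3, 1, 0),
  (1, 0, 3, 0, 2, 3, 1),
  (13, 2, 1, 0, 3, 2, 1),
  (11, 0, 13, 2, 1, 3, 0),
  (9, 0, 5, 22, 0, 1, 0),
  (3, 0, 9, 0, 3, 0, 0),
  (21, 6, 3, 0, 1, 3, 1),
  (1, 0, 21, 6, 2, 1, 1),
  (27, 16, 1, 0, 1, 2, 1),
  (13, 2, 27, 16, 3, 1, 1),
  (9, 28, 13, 2, 0, 3, 0),
  (11, 0, 9, 28, 1, 0, 0),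
  (27, 0, 5, 22, 1, 1, 0),
  (9, 0, 27, 0, 0, 1, 0),
  (29, 18, 9, 0, 3, 0, 0),
  (3, 0, 29, 18, 3, 3, 0),
  (25, 4, 3, 0, 0, 3, 1),
  (21, 6, 25, 4, 1, 0, 1),
  (19, 16, 21, 6, 3, 1, 1),
  (1, 0, 19, 16, 2, 3, 0),
  (29, 18, 1, 0, 3, 2, 0),
  (27, 16, 29, 18, 1, 3, 1),
  (25, 0, 27, 16, 0, 1, 1),
  (13, 2, 25, 0, 3, 0, 1),
  (19, 16, 13, 2, 3, 3, 1),
  (9, 28, 19, 16, 0, 3, 0),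
  (21, 14, 9, 28, 1, 0, 0),
  (11, 0, 21, 14, 1, 1, 0),
  (17, 0, 5, 22, 2, 1, 0),
  (27, 0, 17, 0, 1, 2, 0),
  (5, 22, 27, 0, 1, 1, 0),
  (29, 18, 3, 0, 3, 3, 0),
  (1, 12, 29, 18, 2, 3, 1),
  (3, 0, 1, 12, 3, 2, 0),
  (13, 26, 3, 0, 3, 3, 0),
  (25, 4, 13, 26, 0, 3, 1),
  (27, 16, 25, 4, 1, 0, 1),
  (21, 6, 27, 16, 1, 1, 1),
  (9, 0, 21, 6, 0, 1, 1),
  (19, 16, 9, 0, 3, 0, 1),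
  (5, 22, 19, 16, 1, 3, 0),
  (29, 18, 11, 0, 3, 1, 0),
  (9, 28, 29, 18, 0, 3, 1),
  (27, 16, 9, 28, 1, 0, 1),
  (25, 0, 21, 6, 0, 1, 1),
  (3, 16, 25, 0, 3, 0, 1),
  (13, 2, 3, 16, 3, 3, 1),
  (1, 12, 13, 2, 2, 3, 0),
  (19, 16, 1, 12, 3, 2, 1),
  (13, 2, 19, 16, 3, 3, 1),
  (21, 14, 11, 0, 1, 1, 0),
  (17, 24, 21, 14, 2, 1, 0),
  (11, 0, 17, 24, 1, 2, 0),
  (19, 0, 5, 22, 3, 1, 0),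
  (17, 0, 19, 0, 2, 3, 1),
  (13, 2, 17, 0, 3, 2, 1),
  (27, 0, 13, 2, 1, 3, 0),
  (17, 20, 27, 0, 2, 1, 0),
  (5, 22, 17, 20, 1, 2, 0),
  (11, 16, 29, 18, 1, 3, 1),
  (1, 12, 11, 16, 2, 1, 1),
  (21, 14, 1, 12, 1, 2, 0),
  (3, 0, 21, 14, 3, 1, 0),
  (17, 8, 3, 0, 2, 3, 1),
  (13, 26, 17, 8, 3, 2, 0),
  (3, 0, 13, 26, 3, 3, 0),
  (27, 16, 21, 6, 1, 1, 1),
  (1, 20, 27, 16, 2, 1, 1),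
  (21, 6, 1, 20, 1, 2, 1),
  (11, 16, 21, 6, 1, 1, 1),
  (9, 0, 11, 16, 0, 1, 1),
  (13, 2, 9, 0, 3, 0, 1),
  (25, 4, 19, 16, 0, 3, 0),
  (5, 22, 25, 4, 1, 0, 0),
  (25, 0, 11, 0, 0, 1, 0),
  (29, 18, 25, 0, 3, 0, 0),
  (9, 28, 3, 0, 0, 3, 1),
  (5, 30, 9, 28, 1, 0, 1),
  (27, 16, 5, 30, 1, 1, 1),
  (3, 16, 13, 2, 3, 3, 1),
  (17, 0, 3, 16, 2, 3, 0),
  (1, 12, 27, 0, 2, 1, 0),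
  (5, 30, 1, 12, 1, 2, 1),
  (19, 16, 5, 30, 3, 1, 1),
  (17, 12, 11, 0, 2, 1, 0),
  (21, 14, 17, 12, 1, 2, 0),
  (17, 24, 3, 0, 2, 3, 1),
  (29, 26, 17, 24, 3, 2, 1),
  (11, 0, 29, 26, 1, 3, 0),
  (25, 0, 5, 22, 0, 1, 0),
  (19, 0, 25, 0, 3, 0, 0),
  (21, 6, 19, 0, 1, 3, 1),
  (17, 0, 21, 6, 2, 1, 1),
  (11, 16, 17, 0, 1, 2, 1),
  (13, 2, 11, 16, 3, 1, 1),
  (25, 28, 13, 2, 0, 3, 0),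
  (27, 0, 25, 28, 1, 0, 0),
  (13, 26, 27, 0, 3, 1, 0),
  (17, 20, 13, 26, 2, 3, 1),
  (19, 16, 17, 20, 3, 2, 1),
  (25, 28, 29, 18, 0, 3, 1),
  (11, 16, 25, 28, 1, 0, 1),
  (21, 14, 19, 16, 1, 3, 0),
  (25, 24, 21, 14, 0, 1, 0),
  (3, 0, 25, 24, 3, 0, 0),
  (5, 14, 3, 0, 1, 3, 1),
  (17, 8, 5, 14, 2, 1, 1),
  (11, 0, 17, 8, 1, 2, 0),
  (13, 26, 11, 0, 3, 1, 0),
  (3, 0, 17, 20, 3, 2, 0),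
  (29, 10, 27, 16, 3, 1, 1),
  (1, 20, 29, 10, 2, 3, 0),
  (19, 0, 1, 20, 3, 2, 0),
  (21, 6, 11, 16, 1, 1, 1),
  (29, 10, 19, 16, 3, 3, 1),
  (25, 4, 29, 10, 0, 3, 0),
  (11, 0, 25, 4, 1, 0, 0),
  (5, 22, 11, 0, 1, 1, 0),
  (29, 18, 19, 0, 3, 3, 0),
  (5, 30, 27, 16, 1, 1, 1),
  (17, 24, 5, 30, 2, 1, 1),
  (27, 16, 17, 24, 1, 2, 1),
  (17, 12, 13, 2, 2, 3, 0),
  (3, 16, 17, 12, 3, 2, 1),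
  (5, 22, 3, 16, 1, 3, 0),
  (29, 18, 27, 0, 3, 1, 0),
  (5, 30, 3, 0, 1, 3, 1),
  (25, 24, 5, 30, 0, 1, 1),
  (19, 16, 25, 24, 3, 0, 1),
  (17, 12, 29, 18, 2, 3, 1),
  (21, 14, 3, 16, 1, 3, 0),
  (29, 26, 27, 16, 3, 1, 1),
  (25, 20, 29, 26, 0, 3, 0),
  (11, 0, 25, 20, 1, 0, 0),
  (19, 0, 29, 18, 3, 3, 0),
  (9, 4, 19, 0, 0, 3, 1),
  (21, 6, 9, 4, 1, 0, 1),
  (3, 16, 21, 6, 3, 1, 1),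
  (29, 18, 17, 0, 3, 2, 0),
  (25, 28, 3, 16, 0, 3, 0),
  (21, 14, 25, 28, 1, 0, 0),
  (27, 0, 21, 14, 1, 1, 0),
  (25, 8, 27, 0, 0, 1, 0),
  (13, 26, 25, 8, 3, 0, 0),
  (11, 16, 13, 26, 1, 3, 1),
  (17, 20, 11, 16, 2, 1, 1),
  (21, 6, 17, 20, 1, 2, 1),
  (25, 28, 19, 0, 0, 3, 1),
  (5, 30, 25, 28, 1, 0, 1),
  (11, 16, 5, 30, 1, 1, 1),
  (25, 24, 27, 0, 0, 1, 0),
  (13, 10, 25, 24, 3, 0, 0),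
  (3, 0, 13, 10, 3, 3, 0),
  (9, 12, 3, 0, 0, 3, 1),
  (5, 14, 9, 12, 1, 0, 1),
  (19, 16, 5, 14, 3, 1, 1),
  (17, 8, 19, 16, 2, 3, 0),
  (29, 10, 17, 8, 3, 2, 1),
  (11, 0, 29, 10, 1, 3, 0),
  (9, 8, 11, 0, 0, 1, 0),
  (13, 26, 9, 8, 3, 0, 0),
  (9, 8, 27, 16, 0, 1, 1),
  (29, 10, 9, 8, 3, 0, 1),
  (1, 20, 11, 0, 2, 1, 0),
  (5, 22, 1, 20, 1, 2, 0),
  (19, 16, 29, 10, 3, 3, 1),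
  (17, 12, 27, 16, 2, 1, 1),
  (5, 30, 17, 12, 1, 2, 1),
  (17, 24, 19, 16, 2, 3, 0),
  (13, 10, 17, 24, 3, 2, 0),
  (27, 16, 13, 10, 1, 3, 1),
  (3, 16, 5, 30, 3, 1, 1),
  (9, 4, 3, 16, 0, 3, 0),
  (5, 22, 9, 4, 1, 0, 0),
  (25, 24, 11, 16, 0, 1, 1),
  (29, 26, 25, 24, 3, 0, 1),
  (19, 16, 29, 26, 3, 3, 1),
  (9, 24, 27, 16, 0, 1, 1),
  (29, 26, 9, 24, 3, 0, 1),
  (25, 20, 19, 16, 0, 3, 0),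
  (5, 6, 25, 20, 1, 0, 0),
  (11, 0, 5, 6, 1, 1, 0),
  (19, 0, 17, 12, 3, 2, 0),
  (13, 26, 19, 0, 3, 3, 0),
  (9, 4, 13, 26, 0, 3, 1),
  (11, 16, 9, 4, 1, 0, 1),
  (21, 14, 27, 0, 1, 1, 0),
  (1, 24, 21, 14, 2, 1, 0),
  (27, 0, 1, 24, 1, 2, 0),
  (21, 30, 27, 0, 1, 1, 0),
  (25, 8, 21, 30, 0, 1, 0),
  (3, 0, 25, 8, 3, 0, 0),
  (29, 10, 11, 16, 3, 1, 1),
  (17, 20, 29, 10, 2, 3, 0),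
  (5, 30, 11, 16, 1, 1, 1),
  (1, 24, 5, 30, 2, 1, 1),
  (11, 16, 1, 24, 1, 2, 1),
  (13, 10, 3, 0, 3, 3, 0),
  (17, 4, 13, 10, 2, 3, 1),
  (3, 0, 17, 4, 3, 2, 0),
  (29, 2, 3, 0, 3, 3, 0),
  (9, 12, 29, 2, 0, 3, 1),
  (27, 16, 9, 12, 1, 0, 1),
  (5, 14, 27, 16, 1, 1, 1),
  (25, 8, 5, 14, 0, 1, 1),
  (19, 16, 25, 8, 3, 0, 1),
  (21, 30, 19, 16, 1, 3, 0),
  (17, 8, 21, 30, 2, 1, 0),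
  (27, 16, 17, 8, 1, 2, 1),
  (21, 30, 11, 0, 1, 1, 0),
  (9, 8, 21, 30, 0, 1, 0),
  (19, 0, 9, 8, 3, 0, 0),
  (9, 8, 5, 14, 0, 1, 1),
  (3, 16, 9, 8, 3, 0, 1),
  (29, 10, 3, 16, 3, 3, 1),
  (1, 20, 13, 26, 2, 3, 1),
  (3, 16, 1, 20, 3, 2, 1),
  (5, 30, 19, 0, 1, 3, 1),
  (13, 10, 11, 0, 3, 1, 0),
  (25, 20, 13, 10, 0, 3, 1),
  (27, 16, 25, 20, 1, 0, 1),
  (9, 24, 5, 30, 0, 1, 1),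
  (3, 16, 9, 24, 3, 0, 1),
  (9, 4, 29, 10, 0, 3, 0),
  (27, 0, 9, 4, 1, 0, 0),
  (29, 26, 19, 16, 3, 3, 1),
  (17, 4, 29, 26, 2, 3, 0),
  (19, 16, 17, 4, 3, 2, 1),
  (29, 26, 3, 16, 3, 3, 1),
  (5, 6, 11, 0, 1, 1, 0),
  (1, 16, 5, 6, 2, 1, 0),
  (11, 0, 1, 16, 1, 2, 0),
  (19, 0, 21, 14, 3, 1, 0),
  (1, 8, 19, 0, 2, 3, 1),
  (13, 26, 1, 8, 3, 2, 0),
  (19, 0, 13, 26, 3, 3, 0),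
  (1, 24, 19, 0, 2, 3, 1),
  (29, 26, 1, 24, 3, 2, 1),
  (27, 0, 29, 26, 1, 3, 0),
  (1, 28, 27, 0, 2, 1, 0),
  (21, 30, 1, 28, 1, 2, 0),
  (27, 0, 21, 30, 1, 1, 0),
  (25, 8, 11, 16, 0, 1, 1),
  (29, 10, 25, 8, 3, 0, 1),
  (27, 0, 29, 10, 1, 3, 0),
  (1, 24, 3, 16, 2, 3, 0),
  (13, 10, 1, 24, 3, 2, 0),
  (11, 16, 13, 10, 1, 3, 1),
  (17, 4, 11, 16, 2, 1, 1),
  (5, 6, 17, 4, 1, 2, 0),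
  (3, 0, 5, 6, 3, 1, 0),
  (1, 16, 3, 0, 2, 3, 1),
  (29, 2, 1, 16, 3, 2, 0),
  (3, 0, 29, 2, 3, 3, 0),
  (27, 16, 5, 14, 1, 1, 1),
  (17, 28, 27, 16, 2, 1, 1),
  (5, 14, 17, 28, 1, 2, 1),
  (11, 16, 5, 14, 1, 1, 1),
  (9, 12, 19, 16, 0, 3, 0),
  (21, 30, 9, 12, 1, 0, 0),
  (3, 0, 21, 30, 3, 1, 0),
  (27, 16, 13, 26, 1, 3, 1),
  (17, 28, 11, 0, 2, 1, 0),
  (21, 30, 17, 28, 1, 2, 0),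
  (11, 0, 21, 30, 1, 1, 0),
  (3, 16, 29, 10, 3, 3, 1),
  (1, 8, 3, 16, 2, 3, 0),
  (29, 10, 1, 8, 3, 2, 1),
  (9, 24, 11, 0, 0, 1, 0),
  (13, 10, 9, 24, 3, 0, 0),
  (25, 20, 3, 0, 0, 3, 1),
  (21, 22, 25, 20, 1, 0, 1),
  (27, 16, 21, 22, 1, 1, 1),
  (3, 16, 29, 26, 3, 3, 1),
  (17, 4, 27, 0, 2, 1, 0),
  (21, 22, 17, 4, 1, 2, 1),
  (19, 16, 21, 22, 3, 1, 1),
  (1, 4, 11, 0, 2, 1, 0),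
  (5, 6, 1, 4, 1, 2, 0),
  (13, 18, 1, 16, 3, 2, 1),
  (11, 0, 13, 18, 1, 3, 0),
  (9, 24, 21, 14, 0, 1, 0),
  (19, 0, 9, 24, 3, 0, 0),
  (5, 14, 19, 0, 1, 3, 1),
  (1, 8, 5, 14, 2, 1, 1),
  (27, 0, 1, 8, 1, 2, 0),
  (29, 26, 11, 16, 3, 1, 1),
  (9, 20, 29, 26, 0, 3, 0),
  (27, 0, 9, 20, 1, 0, 0),
  (29, 2, 27, 0, 3, 1, 0),
  (1, 28, 29, 2, 2, 3, 1),
  (19, 16, 1, 28, 3, 2, 1),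
  (1, 8, 21, 30, 2, 1, 0),
  (5, 14, 11, 16, 1, 1, 1),
  (13, 10, 27, 0, 3, 1, 0),
  (9, 20, 13, 10, 0, 3, 1),
  (11, 16, 9, 20, 1, 0, 1),
  (5, 6, 19, 16, 1, 3, 0),
  (9, 16, 5, 6, 0, 1, 0),
  (3, 0, 9, 16, 3, 0, 0),
  (21, 22, 3, 0, 1, 3, 1),
  (1, 16, 21, 22, 2, 1, 1),
  (29, 2, 11, 0, 3, 1, 0),
  (3, 0, 1, 28, 3, 2, 0),
  (13, 18, 27, 16, 3, 1, 1),
  (17, 28, 13, 18, 2, 3, 0),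
  (19, 0, 17, 28, 3, 2, 0),
  (11, 16, 1, 8, 1, 2, 1),
  (13, 18, 19, 16, 3, 3, 1),
  (9, 12, 13, 18, 0, 3, 0),
  (11, 0, 9, 12, 1, 0, 0),
  (17, 28, 29, 2, 2, 3, 1),
  (3, 16, 17, 28, 3, 2, 1),
  (21, 30, 3, 16, 1, 3, 0),
  (13, 10, 19, 0, 3, 3, 0),
  (21, 22, 27, 16, 1, 1, 1),
  (27, 16, 1, 16, 1, 2, 1),
  (1, 4, 29, 26, 2, 3, 0),
  (3, 16, 1, 4, 3, 2, 1),
  (9, 16, 21, 22, 0, 1, 1),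
  (19, 16, 9, 16, 3, 0, 1),
  (1, 4, 13, 10, 2, 3, 1),
  (5, 6, 3, 16, 1, 3, 0),
  (19, 0, 13, 10, 3, 3, 0),
  (25, 12, 19, 0, 0, 3, 1),
  (5, 14, 25, 12, 1, 0, 1),
  (3, 16, 5, 14, 3, 1, 1),
  (9, 20, 3, 16, 0, 3, 0),
  (5, 6, 9, 20, 1, 0, 0),
  (27, 0, 5, 6, 1, 1, 0),
  (9, 16, 27, 0, 0, 1, 0),
  (29, 2, 9, 16, 3, 0, 0),
  (11, 16, 29, 2, 1, 3, 1),
  (1, 28, 11, 16, 2, 1, 1),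
  (5, 14, 1, 28, 1, 2, 1),
  (19, 0, 21, 30, 3, 1, 0),
  (9, 20, 19, 0, 0, 3, 1),
  (21, 22, 9, 20, 1, 0, 1),
  (11, 16, 21, 22, 1, 1, 1),
  (1, 16, 19, 16, 2, 3, 0),
  (25, 16, 11, 0, 0, 1, 0),
  (29, 2, 25, 16, 3, 0, 0),
  (25, 16, 27, 16, 0, 1, 1),
  (13, 18, 25, 16, 3, 0, 1),
  (19, 16, 13, 18, 3, 3, 1),
  (27, 16, 29, 2, 1, 3, 1),
  (25, 12, 3, 16, 0, 3, 0),
  (21, 30, 25, 12, 1, 0, 0),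
  (1, 4, 27, 16, 2, 1, 1),
  (21, 22, 1, 4, 1, 2, 1),
  (3, 16, 21, 22, 3, 1, 1),
  (9, 16, 11, 16, 0, 1, 1),
  (13, 18, 9, 16, 3, 0, 1),
  (19, 0, 1, 4, 3, 2, 0),
  (29, 2, 19, 0, 3, 3, 0),
  (25, 12, 29, 2, 0, 3, 1),
  (11, 16, 25, 12, 1, 0, 1),
  (5, 6, 27, 0, 1, 1, 0),
  (17, 16, 5, 6, 2, 1, 0),
  (27, 0, 17, 16, 1, 2, 0),
  (13, 18, 11, 16, 3, 1, 1),
  (1, 28, 13, 18, 2, 3, 0),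
  (21, 22, 11, 16, 1, 1, 1),
  (17, 16, 21, 22, 2, 1, 1),
  (11, 16, 17, 16, 1, 2, 1),
  (25, 16, 5, 6, 0, 1, 0),
  (19, 0, 25, 16, 3, 0, 0),
  (25, 16, 21, 22, 0, 1, 1),
  (3, 16, 25, 16, 3, 0, 1),
  (13, 18, 3, 16, 3, 3, 1),
  (25, 12, 13, 18, 0, 3, 0),
  (27, 0, 25, 12, 1, 0, 0),
  (21, 22, 19, 0, 1, 3, 1),
  (19, 0, 5, 6, 3, 1, 0),
  (17, 16, 19, 0, 2, 3, 1),
  (29, 2, 17, 16, 3, 2, 0),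
  (19, 0, 29, 2, 3, 3, 0),
  (13, 18, 17, 16, 3, 2, 1),
  (27, 0, 13, 18, 1, 3, 0),
  (17, 16, 3, 16, 2, 3, 0),
  (3, 16, 13, 18, 3, 3, 1)]

end Pool.Agent.WEq.Jac
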