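import Mathlib
import Pool.Agent.WEq.JacTable

set_option autoImplicit false
set_option maxRecDepth 100000

namespace Pool.Agent.WEq.Jac

/-- numerical code of a state -/
def enc : St → ℕ
  | (x1, x2, y1, y2, L, l, c) => (((((x1 * 32 + x2) * 32 + y1) * 32 + y2) * 4 + L) * 4 + l) * 2 + c

theorem bounded : ∀ s ∈ tab, s.1 < 32 ∧ s.2.1 < 32 ∧ s.2.2.1 < 32 ∧ s.2.2.2.1 < 32 ∧
    s.2.2.2.2.1 < 4 ∧ s.2.2.2.2.2.1 < 4 ∧ s.2.2.2.2.2.2 < 2 := by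
  decide +kernel

theorem closedA : ∀ s ∈ tab, stA s ∈ tab := by
  decide +kernel

theorem closedB : ∀ s ∈ tab, stB s ∈ tab := by
  decide +kernel

theorem init_mem : ((11, 0, 5, 22, 1, 1, 0) : St) ∈ tab := by
  decide +kernel

theorem not_both_even : ∀ s ∈ tab, s.2.2.2.2.1 % 2 = 1 ∨ s.2.2.2.2.2.1 % 2 = 1 := by
  decide +kernel

theorem consistent : ∀ s ∈ tab, ∀ t ∈ tab, s.2.2.2.2.1 % 2 = 1 → t.2.2.2.2.1 % 2 = 1 →
    s.1 = t.1 → s.2.1 = t.2.1 → s.2.2.2.2.2.2 = t.2.2.2.2.2.2 := by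
  decide +kernel

end Pool.Agent.WEq.Jac
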