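import Mathlib
import Pool.Agent.WEq.JacCheck

set_option autoImplicit false

namespace Pool.Agent.WEq.Jac

/-- Jacobi symbol with the odd entry below; the first entry if both are odd -/
def chi (L l : ℕ) : ℤ := if L % 2 = 1 then jacobiSym l L else jacobiSym L l

def sg (c : ℕ) : ℤ := if c % 2 = 1 then -1 else 1

theorem sg_add (a b : ℕ) : sg (a + b) = sg a * sg b := by
  unfold sg
  rcases Nat.mod_two_eq_zero_or_one a with ha | ha <;>
    rcases Nat.mod_two_eq_zero_or_one b with hb | hb <;>
    simp [Nat.add_mod, ha, hb]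

theorem sg_mod (a : ℕ) : sg (a % 2) = sg a := by
  unfold sg
  simp

theorem recip {a b : ℕ} (ha : a % 2 = 1) (hb : b % 2 = 1) :
    jacobiSym a b = sg (eb a b) * jacobiSym b a := by
  have ha' : Odd a := Nat.odd_iff.mpr ha
  have hb' : Odd b := Nat.odd_iff.mpr hb
  unfold eb
  split_ifs with h
  · rw [jacobiSym.quadratic_reciprocity_three_mod_four h.1 h.2]
    simp [sg]
  · by_cases h1 : a % 4 = 1
    · rw [jacobiSym.quadratic_reciprocity_one_mod_four h1 hb']
      simp [sg]
    · have h2 : b % 4 = 1 := by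
        have : a % 4 = 3 := by omega
        by_contra h3
        exact h ⟨this, by omega⟩
      rw [← jacobiSym.quadratic_reciprocity_one_mod_four h2 ha']
      simp [sg]

theorem neg_one {b : ℕ} (hb : b % 2 = 1) : jacobiSym (-1) b = sg (db b) := by
  have hb' : Odd b := Nat.odd_iff.mpr hb
  rw [jacobiSym.at_neg_one hb']
  unfold db
  split_ifs with h
  · rw [ZMod.χ₄_nat_three_mod_four h]; simp [sg]
  · rw [ZMod.χ₄_nat_one_mod_four (by omega)]; simp [sg]

theorem jac_add_left (a b : ℕ) : jacobiSym ((a + b : ℕ) : ℤ) b = jacobiSym (a : ℤ) b := by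
  apply jacobiSym.mod_left'
  push_cast
  simp

theorem jac_sub {a b : ℕ} : jacobiSym (a : ℤ) (a + b) = jacobiSym (-(b : ℤ)) (a + b) := by
  apply jacobiSym.mod_left'
  have h : (a : ℤ) ≡ -(b : ℤ) [ZMOD ((a + b : ℕ) : ℤ)] := by
    rw [Int.modEq_iff_dvd]
    refine ⟨-1, ?_⟩
    push_cast
    ring
  exact h

theorem chi_A {L l : ℕ} (h : L % 2 = 1 ∨ l % 2 = 1) :
    chi (L + l) l = chi L l * sg (if l % 2 = 1 then (if L % 2 = 0 then eb l (L + l) else eb l L)
      else db (L + l) + eb L (L + l)) := by
  unfold chi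
  by_cases hl : l % 2 = 1
  · by_cases hL : L % 2 = 1
    · rw [if_neg (by omega), if_pos hL, if_pos hl, if_neg (by omega), jac_add_left,
        recip (a := l) (b := L) hl hL]
      have : sg (eb l L) * sg (eb l L) = 1 := by unfold sg; split_ifs <;> simp
      rw [mul_comm (sg (eb l L)) _, mul_assoc, this, mul_one]
    · rw [if_pos (by omega), if_neg hL, if_pos hl, if_pos (by omega),
        recip (a := l) (b := L + l) hl (by omega), jac_add_left, mul_comm]
  · have hL : L % 2 = 1 := by omega
    rw [if_pos (by omega), if_pos hL, if_neg hl, sg_add]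
    have e1 : jacobiSym (l : ℤ) (L + l) = jacobiSym (-(L : ℤ)) (L + l) := by
      rw [add_comm L l]; exact jac_sub
    rw [e1, ← neg_one_mul, jacobiSym.mul_left, neg_one (by omega),
      recip (a := L) (b := L + l) hL (by omega)]
    have e2 : jacobiSym ((L + l : ℕ) : ℤ) L = jacobiSym (l : ℤ) L := by
      rw [add_comm]; exact jac_add_left l L
    rw [e2]
    ring

theorem chi_B {L l : ℕ} (h : L % 2 = 1 ∨ l % 2 = 1) :
    chi L (L + l) = chi L l * sg (if L % 2 = 1 then 0 else db (L + l) + eb l (L + l)) := by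
  unfold chi
  by_cases hL : L % 2 = 1
  · rw [if_pos hL, if_pos hL, if_pos hL]
    have e2 : jacobiSym ((L + l : ℕ) : ℤ) L = jacobiSym (l : ℤ) L := by
      rw [add_comm]; exact jac_add_left l L
    rw [e2]
    simp [sg]
  · have hl : l % 2 = 1 := by omega
    rw [if_neg hL, if_neg hL, if_neg hL, sg_add]
    rw [jac_sub, ← neg_one_mul, jacobiSym.mul_left, neg_one (by omega),
      recip (a := l) (b := L + l) hl (by omega), jac_add_left]
    ring

end Pool.Agent.WEq.Jac
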