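import Mathlib
import Pool.Agent.WEq.JacSym
import Pool.Agent.WEq.Basic

set_option autoImplicit false

namespace Pool.Agent.WEq.Jac

abbrev Z2 := ZMod 32 × ZMod 32

/-- composition of the affine maps t ↦ u t + v -/
def mz (p q : Z2) : Z2 := (p.1 * q.1, p.1 * q.2 + p.2)

theorem mz_assoc (p q r : Z2) : mz (mz p q) r = mz p (mz q r) := by
  unfold mz
  ext <;> simp <;> ring

theorem one_mz (p : Z2) : mz (1, 0) p = p := by
  unfold mz
  ext <;> simp

theorem mz_one (p : Z2) : mz p (1, 0) = p := by
  unfold mz
  ext <;> simp

def gen (c : Bool) : Z2 := if c then (13, 2) else (3, 0)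

def hz : List Bool → Z2
  | [] => (1, 0)
  | c :: w => mz (gen c) (hz w)

theorem hz_append (x y : List Bool) : hz (x ++ y) = mz (hz x) (hz y) := by
  induction x with
  | nil => simp [hz, one_mz]
  | cons c x ih => simp [hz, ih, mz_assoc]

def cp (p : ℕ × ℕ) : Z2 := ((p.1 : ZMod 32), (p.2 : ZMod 32))

theorem cp_pm (p q : ℕ × ℕ) : cp (pm p q) = mz (cp p) (cp q) := by
  have h : ∀ a : ℕ, ((a % 32 : ℕ) : ZMod 32) = (a : ZMod 32) := fun a => ZMod.natCast_mod a 32
  unfold cp pm mz
  simp only [h]
  push_cast
  rfl

theorem cp_b : cp (13, 2) = gen true := by simp [cp, gen]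
theorem cp_a : cp (3, 0) = gen false := by simp [cp, gen]

def Mat (x y : Z2) (L l : ℕ) (s : St) : Prop :=
  x = cp (s.1, s.2.1) ∧ y = cp (s.2.2.1, s.2.2.2.1) ∧ L % 4 = s.2.2.2.2.1 ∧
    l % 4 = s.2.2.2.2.2.1 ∧ chi L l = sg s.2.2.2.2.2.2

def Inv (x y : Z2) (L l : ℕ) : Prop := ∃ s ∈ tab, Mat x y L l s

theorem eb_mod (a b : ℕ) : eb (a % 4) (b % 4) = eb a b := by
  unfold eb; simp
theorem db_mod (b : ℕ) : db (b % 4) = db b := by
  unfold db; simp
theorem eb_mod_l (a b : ℕ) : eb (a % 4) b = eb a b := by
  unfold eb; simp
theorem eb_mod_r (a b : ℕ) : eb a (b % 4) = eb a b := by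
  unfold eb; simp

theorem db_add (a b : ℕ) : db (a % 4 + b % 4) = db (a + b) := by
  rw [← db_mod, ← Nat.add_mod, db_mod]
theorem eb_add (x a b : ℕ) : eb x (a % 4 + b % 4) = eb x (a + b) := by
  rw [← eb_mod_r, ← Nat.add_mod, eb_mod_r]

theorem inv_A {x y : Z2} {L l : ℕ} (h : Inv x y L l) :
    Inv (mz (mz (mz y (gen true)) (gen false)) x) y (L + l) l := by
  obtain ⟨s, hs, hM⟩ := h
  refine ⟨stA s, closedA s hs, ?_⟩
  have hodd := not_both_even s hs
  obtain ⟨x1, x2, y1, y2, L4, l4, c⟩ := s
  obtain ⟨h1, h2, h3, h4, h5⟩ := hM
  simp only at h1 h2 h3 h4 h5 hodd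
  have hodd' : L % 2 = 1 ∨ l % 2 = 1 := by omega
  refine ⟨?_, h2, ?_, h4, ?_⟩
  · simp only [stA]
    rw [h1, h2, ← cp_b, ← cp_a, ← cp_pm, ← cp_pm, ← cp_pm]
  · simp only [stA]
    omega
  · simp only [stA]
    rw [chi_A hodd', h5, sg_mod, sg_add]
    congr 2
    have e1 : l % 4 % 2 = l % 2 := by omega
    have e2 : L % 4 % 2 = L % 2 := by omega
    simp only [← h3, ← h4, eb_mod_l, eb_mod_r, db_mod, db_add, eb_add, e1, e2]

theorem inv_B {x y : Z2} {L l : ℕ} (h : Inv x y L l) :
    Inv x (mz (mz (mz x (gen false)) (gen true)) y) L (L + l) := by
  obtain ⟨s, hs, hM⟩ := h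
  refine ⟨stB s, closedB s hs, ?_⟩
  have hodd := not_both_even s hs
  obtain ⟨x1, x2, y1, y2, L4, l4, c⟩ := s
  obtain ⟨h1, h2, h3, h4, h5⟩ := hM
  simp only at h1 h2 h3 h4 h5 hodd
  have hodd' : L % 2 = 1 ∨ l % 2 = 1 := by omega
  refine ⟨h1, ?_, h3, ?_, ?_⟩
  · simp only [stB]
    rw [h1, h2, ← cp_b, ← cp_a, ← cp_pm, ← cp_pm, ← cp_pm]
  · simp only [stB]
    omega
  · simp only [stB]
    rw [chi_B hodd', h5, sg_mod, sg_add]
    congr 2
    have e2 : L % 4 % 2 = L % 2 := by omega
    simp only [← h3, ← h4, eb_mod_l, eb_mod_r, db_mod, db_add, eb_add, e2]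

theorem inv_init : Inv (cp (11, 0)) (cp (5, 22)) 1 1 := by
  refine ⟨_, init_mem, rfl, rfl, rfl, rfl, ?_⟩
  simp [chi, sg]

theorem virt_b (p : Z2) : mz (mz (cp (5, 22)) (gen true)) p = p := by
  have : mz (cp (5, 22)) (gen true) = (1, 0) := by decide
  rw [this, one_mz]

theorem virt_a (p : Z2) : mz (mz (cp (11, 0)) (gen false)) p = p := by
  have : mz (cp (11, 0)) (gen false) = (1, 0) := by decide
  rw [this, one_mz]

/-- the pairs (a^k, a^(k+1)) -/
theorem inv_rep_a (k : ℕ) :
    Inv (hz (List.replicate k false)) (cp (5, 22)) (k + 2) 1 := by
  induction k with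
  | zero =>
    have h := inv_A inv_init
    have e : mz (mz (mz (cp (5, 22)) (gen true)) (gen false)) (cp (11, 0)) =
        hz (List.replicate 0 false) := by decide
    rw [e] at h
    exact h
  | succ k ih =>
    have h := inv_A ih
    have e : mz (mz (mz (cp (5, 22)) (gen true)) (gen false)) (hz (List.replicate k false)) =
        hz (List.replicate (k + 1) false) := by
      rw [virt_b, List.replicate_succ]
      rfl
    rw [e] at h
    exact h

theorem inv_rep_b (k : ℕ) :
    Inv (cp (11, 0)) (hz (List.replicate k true)) 1 (k + 2) := by
  induction k with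
  | zero =>
    have h := inv_B inv_init
    have e : mz (mz (mz (cp (11, 0)) (gen false)) (gen true)) (cp (5, 22)) =
        hz (List.replicate 0 true) := by decide
    rw [e] at h
    exact h
  | succ k ih =>
    have h := inv_B ih
    have e : mz (mz (mz (cp (11, 0)) (gen false)) (gen true)) (hz (List.replicate k true)) =
        hz (List.replicate (k + 1) true) := by
      rw [virt_a, List.replicate_succ]
      rfl
    rw [e] at h
    have e2 : 1 + (k + 2) = k + 1 + 2 := by ring
    rw [e2] at h
    exact h

theorem rep_of_comm {c : Bool} : ∀ (X : List Bool), c :: X = X ++ [c] →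
    X = List.replicate X.length c := by
  intro X
  induction X with
  | nil => intro _; rfl
  | cons d X ih =>
    intro h
    simp only [List.cons_append, List.cons.injEq] at h
    obtain ⟨h1, h2⟩ := h
    subst h1
    rw [List.length_cons, List.replicate_succ]
    congr 1
    exact ih h2

/-- every solution satisfies the invariant -/
theorem inv_sol : ∀ (N : ℕ) (X Y : List Bool), X.length + Y.length ≤ N →
    Sol [false, true] [true, false] X Y → Inv (hz X) (hz Y) (X.length + 2) (Y.length + 2) := by
  intro N
  induction N using Nat.strong_induction_on with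
  | _ N ih =>
    intro X Y hN h
    by_cases h1 : Y.length + 2 ≤ X.length
    · obtain ⟨X', hX, hs⟩ := descent h h1
      have hl : X.length = Y.length + 2 + X'.length := by
        rw [hX]; simp; ring
      have := inv_A (ih (X'.length + Y.length) (by omega) X' Y le_rfl hs)
      have e : hz X = mz (mz (mz (hz Y) (gen true)) (gen false)) (hz X') := by
        rw [hX, hz_append, hz_append]
        simp only [hz, mz_one, mz_assoc]
      rw [e]
      have e2 : X.length + 2 = X'.length + 2 + (Y.length + 2) := by omega
      rw [e2]
      exact this
    · by_cases h2 : X.length + 2 ≤ Y.length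
      · obtain ⟨Y', hY, hs⟩ := descent' h h2
        have hl : Y.length = X.length + 2 + Y'.length := by
          rw [hY]; simp; ring
        have := inv_B (ih (X.length + Y'.length) (by omega) X Y' le_rfl hs)
        have e : hz Y = mz (mz (mz (hz X) (gen false)) (gen true)) (hz Y') := by
          rw [hY, hz_append, hz_append]
          simp only [hz, mz_one, mz_assoc]
        rw [e]
        have e2 : Y.length + 2 = X.length + 2 + (Y'.length + 2) := by omega
        rw [e2]
        exact this
      · -- close lengths
        have h0 : X ++ ([false, true] ++ Y) = Y ++ ([true, false] ++ X) := by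
          simpa [Sol] using h
        rcases lt_trichotomy X.length Y.length with hlt | heq | hgt
        · have hp : X <+: Y := by
            have : X <+: Y ++ ([true, false] ++ X) := h0 ▸ List.prefix_append _ _
            exact List.prefix_of_prefix_length_le this (List.prefix_append _ _) hlt.le
          obtain ⟨w, hw⟩ := hp
          have hwl : w.length = 1 := by
            have := congrArg List.length hw
            simp only [List.length_append] at this
            omega
          obtain ⟨c, hc⟩ := List.length_eq_one_iff.mp hwl
          subst hc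
          rw [← hw] at h0
          have h3 : [false, true] ++ (X ++ [c]) = [c] ++ ([true, false] ++ X) := by
            have : X ++ ([false, true] ++ (X ++ [c])) = X ++ ([c] ++ ([true, false] ++ X)) := by
              simpa using h0
            exact List.append_cancel_left this
          simp only [List.cons_append, List.nil_append, List.cons.injEq, true_and] at h3
          obtain ⟨h4, h5⟩ := h3
          subst h4
          have h6 := rep_of_comm X h5.symm
          have := inv_B (inv_rep_a X.length)
          have e : hz Y = mz (mz (mz (hz (List.replicate X.length false)) (gen false))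
              (gen true)) (cp (5, 22)) := by
            rw [← hw, hz_append, ← h6]
            have e1 : mz (gen true) (cp (5, 22)) = (1, 0) := by decide
            rw [mz_assoc, e1, mz_one]
            simp only [hz, mz_one]
          rw [e]
          have e3 : hz X = hz (List.replicate X.length false) := by rw [← h6]
          rw [e3]
          have e2 : Y.length + 2 = X.length + 2 + 1 := by
            rw [← hw]; simp
          rw [e2]
          exact this
        · exfalso
          have h3 : X = Y := (List.append_inj h0 heq).1
          subst h3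
          have h4 := (List.append_inj h0 rfl).2
          simp at h4
        · have hp : Y <+: X := by
            have : Y <+: X ++ ([false, true] ++ Y) := h0 ▸ List.prefix_append _ _
            exact List.prefix_of_prefix_length_le this (List.prefix_append _ _) hgt.le
          obtain ⟨w, hw⟩ := hp
          have hwl : w.length = 1 := by
            have := congrArg List.length hw
            simp only [List.length_append] at this
            omega
          obtain ⟨c, hc⟩ := List.length_eq_one_iff.mp hwl
          subst hc
          rw [← hw] at h0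
          have h3 : [c] ++ ([false, true] ++ Y) = [true, false] ++ (Y ++ [c]) := by
            have : Y ++ ([c] ++ ([false, true] ++ Y)) = Y ++ ([true, false] ++ (Y ++ [c])) := by
              simpa using h0
            exact List.append_cancel_left this
          simp only [List.cons_append, List.nil_append, List.cons.injEq, true_and] at h3
          obtain ⟨h4, h5⟩ := h3
          subst h4
          have h6 := rep_of_comm Y h5
          have := inv_A (inv_rep_b Y.length)
          have e : hz X = mz (mz (mz (hz (List.replicate Y.length true)) (gen true))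
              (gen false)) (cp (11, 0)) := by
            rw [← hw, hz_append, ← h6]
            have e1 : mz (gen false) (cp (11, 0)) = (1, 0) := by decide
            rw [mz_assoc, e1, mz_one]
            simp only [hz, mz_one]
          rw [e]
          have e3 : hz Y = hz (List.replicate Y.length true) := by rw [← h6]
          rw [e3]
          have e2 : X.length + 2 = 1 + (Y.length + 2) := by
            rw [← hw]; simp; ring
          rw [e2]
          exact this

theorem rep_cons (c : Bool) (k : ℕ) (r : List Bool) :
    List.replicate k c ++ c :: r = c :: (List.replicate k c ++ r) := by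
  induction k with
  | zero => rfl
  | succ k ih => simp [List.replicate_succ, ih]

/-- all coprime pairs occur -/
theorem exists_sol : ∀ (N L l : ℕ), L + l ≤ N → Nat.Coprime L l → 2 ≤ L → 2 ≤ l →
    ∃ X Y : List Bool, Sol [false, true] [true, false] X Y ∧ X.length + 2 = L ∧
      Y.length + 2 = l := by
  intro N
  induction N using Nat.strong_induction_on with
  | _ N ih =>
    intro L l hN hc hL hl
    rcases lt_trichotomy L l with hlt | heq | hgt
    · by_cases h1 : l = L + 1
      · refine ⟨List.replicate (L - 2) false, List.replicate (L - 1) false, ?_, ?_, ?_⟩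
        · unfold Sol
          have e : L - 1 = (L - 2) + 1 := by omega
          rw [e, List.replicate_succ]
          simp only [List.append_assoc, List.cons_append, List.nil_append, rep_cons]
        · simp; omega
        · simp; omega
      · have hc' : Nat.Coprime L (l - L) := by
          have : Nat.Coprime L (l - L + L) := by rw [Nat.sub_add_cancel hlt.le]; exact hc
          simpa using this
        obtain ⟨X, Y, hs, hX, hY⟩ := ih (L + (l - L)) (by omega) L (l - L) le_rfl hc' hL
          (by omega)
        refine ⟨X, X ++ [false, true] ++ Y, ?_, hX, ?_⟩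
        · exact sol_mv (z := (X, Y)) false hs
        · simp; omega
    · exfalso
      rw [heq, Nat.coprime_self] at hc
      omega
    · by_cases h1 : L = l + 1
      · refine ⟨List.replicate (l - 1) true, List.replicate (l - 2) true, ?_, ?_, ?_⟩
        · unfold Sol
          have e : l - 1 = (l - 2) + 1 := by omega
          rw [e, List.replicate_succ]
          simp only [List.append_assoc, List.cons_append, List.nil_append, rep_cons]
        · simp; omega
        · simp; omega
      · have hc' : Nat.Coprime (L - l) l := by
          have : Nat.Coprime (L - l + l) l := by rw [Nat.sub_add_cancel hgt.le]; exact hc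
          simpa using this
        obtain ⟨X, Y, hs, hX, hY⟩ := ih (L - l + l) (by omega) (L - l) l le_rfl hc'
          (by omega) hl
        refine ⟨Y ++ [true, false] ++ X, Y, ?_, ?_, hY⟩
        · exact sol_mv (z := (X, Y)) true hs
        · simp; omega

end Pool.Agent.WEq.Jac
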