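import Mathlib
import Pool.Agent.WEq.JacInv

set_option autoImplicit false

namespace Pool.Agent.WEq.Jac

def acc (c : ℕ) : Set Z2 :=
  {z | ∃ s ∈ tab, s.2.2.2.2.1 % 2 = 1 ∧ s.2.2.2.2.2.2 = c ∧ z = cp (s.1, s.2.1)}

def dfa (c : ℕ) : DFA Bool (Z2 × ZMod 2) where
  step := fun s b => (mz s.1 (gen b), s.2 + 1)
  start := ((1, 0), 0)
  accept := {s | s.1 ∈ acc c ∧ s.2 = 1}

theorem dfa_evalFrom (c : ℕ) (w : List Bool) (z : Z2) (p : ZMod 2) :
    (dfa c).evalFrom (z, p) w = (mz z (hz w), p + w.length) := by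
  induction w generalizing z p with
  | nil => simp [hz, mz_one, DFA.evalFrom]
  | cons b w ih =>
    have : (dfa c).evalFrom (z, p) (b :: w) = (dfa c).evalFrom (mz z (gen b), p + 1) w := rfl
    rw [this, ih]
    simp only [hz, mz_assoc, List.length_cons, Nat.cast_add, Nat.cast_one]
    congr 1
    ring

theorem mem_dfa (c : ℕ) (w : List Bool) :
    w ∈ (dfa c).accepts ↔ hz w ∈ acc c ∧ Odd w.length := by
  have h : (dfa c).eval w = (hz w, (w.length : ZMod 2)) := by
    have := dfa_evalFrom c w (1, 0) 0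
    rw [one_mz, zero_add] at this
    exact this
  rw [DFA.mem_accepts, h]
  show hz w ∈ acc c ∧ ((w.length : ZMod 2)) = 1 ↔ _
  rw [ZMod.natCast_eq_one_iff_odd]

theorem regular (c : ℕ) : (dfa c).accepts.IsRegular :=
  ⟨Z2 × ZMod 2, inferInstance, dfa c, rfl⟩

theorem cp_inj {a b c d : ℕ} (ha : a < 32) (hb : b < 32) (hc : c < 32) (hd : d < 32)
    (h : cp (a, b) = cp (c, d)) : a = c ∧ b = d := by
  unfold cp at h
  simp only [Prod.mk.injEq] at h
  constructor
  · have := (ZMod.natCast_eq_natCast_iff a c 32).mp h.1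
    unfold Nat.ModEq at this
    omega
  · have := (ZMod.natCast_eq_natCast_iff b d 32).mp h.2
    unfold Nat.ModEq at this
    omega

theorem sg_inj {a b : ℕ} (ha : a < 2) (hb : b < 2) (h : sg a = sg b) : a = b := by
  unfold sg at h
  split_ifs at h <;> omega

theorem main (c : ℕ) (hc : c < 2) (n m : ℕ) :
    (∃ X ∈ (dfa c).accepts, ∃ Y : List Bool,
      X ++ [false, true] ++ Y = Y ++ [true, false] ++ X ∧ X.length + 2 = n ∧ Y.length + 2 = m) ↔
    (Odd n ∧ 2 ≤ n ∧ 2 ≤ m ∧ jacobiSym m n = sg c) := by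
  constructor
  · rintro ⟨X, hX, Y, hs, hn, hm⟩
    rw [mem_dfa] at hX
    obtain ⟨⟨t, ht, ht1, ht2, ht3⟩, hodd⟩ := hX
    have hno : Odd n := by
      rw [← hn]
      exact Odd.add_even hodd (by norm_num)
    refine ⟨hno, by omega, by omega, ?_⟩
    obtain ⟨s, hs', hM⟩ := inv_sol (X.length + Y.length) X Y le_rfl hs
    obtain ⟨h1, h2, h3, h4, h5⟩ := hM
    rw [hn, hm] at h5
    have hn1 : n % 2 = 1 := Nat.odd_iff.mp hno
    have hs1 : s.2.2.2.2.1 % 2 = 1 := by
      rw [← h3, hn]; omega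
    have b1 := bounded s hs'
    have b2 := bounded t ht
    rw [h1] at ht3
    obtain ⟨e1, e2⟩ := cp_inj b1.1 b1.2.1 b2.1 b2.2.1 ht3
    have e3 := consistent s hs' t ht hs1 ht1 e1 e2
    unfold chi at h5
    rw [if_pos hn1, e3, ht2] at h5
    exact h5
  · rintro ⟨hno, hn, hm, hJ⟩
    have hcop : Nat.Coprime n m := by
      by_contra hcon
      have : jacobiSym m n = 0 := by
        rw [jacobiSym.eq_zero_iff]
        refine ⟨by omega, ?_⟩
        rw [Int.gcd_natCast_natCast]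
        rw [Nat.coprime_comm] at hcon
        exact hcon
      rw [this] at hJ
      unfold sg at hJ
      split_ifs at hJ <;> omega
    obtain ⟨X, Y, hs, hX, hY⟩ := exists_sol (n + m) n m le_rfl hcop hn hm
    refine ⟨X, ?_, Y, hs, hX, hY⟩
    rw [mem_dfa]
    have hn1 : n % 2 = 1 := Nat.odd_iff.mp hno
    refine ⟨?_, ?_⟩
    · obtain ⟨s, hs', hM⟩ := inv_sol (X.length + Y.length) X Y le_rfl hs
      obtain ⟨h1, h2, h3, h4, h5⟩ := hM
      rw [hX, hY] at h5
      unfold chi at h5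
      rw [if_pos hn1, hJ] at h5
      have b1 := bounded s hs'
      exact ⟨s, hs', by rw [← h3, hX]; omega, (sg_inj hc b1.2.2.2.2.2.2 h5).symm, h1⟩
    · rw [Nat.odd_iff]; omega

/-- an odd nonsquare has a number with symbol -1 -/
theorem exists_neg_one {n : ℕ} (hn : Odd n) (hs : ¬ IsSquare n) :
    ∃ m : ℕ, jacobiSym m n = -1 := by
  have hn0 : 0 < n := hn.pos
  obtain ⟨a, b, hab, hsf⟩ := Nat.sq_mul_squarefree n
  -- b ^ 2 * a = n
  have ha1 : a ≠ 1 := by
    rintro rfl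
    exact hs ⟨b, by rw [← hab]; ring⟩
  obtain ⟨p, hp, hpa⟩ := Nat.exists_prime_and_dvd ha1
  obtain ⟨a', rfl⟩ := hpa
  have hpn : p ∣ n := by rw [← hab]; exact Dvd.intro_left (b ^ 2 * a') (by ring)
  have hp2 : p ≠ 2 := by
    rintro rfl
    have := hn.of_dvd_nat hpn
    exact absurd this (by decide)
  have hpa' : ¬ p ∣ a' := by
    intro hd
    obtain ⟨t, rfl⟩ := hd
    have : p * p ∣ p * (p * t) := ⟨t, by ring⟩
    have := hsf p this
    exact hp.one_lt.ne' (Nat.isUnit_iff.mp this)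
  have hb0 : b ≠ 0 := by
    rintro rfl
    simp at hab
    omega
  obtain ⟨e, b', hb', hbe⟩ := Nat.exists_eq_pow_mul_and_not_dvd hb0 p hp.ne_one
  have hn' : n = p ^ (2 * e + 1) * (b' ^ 2 * a') := by
    rw [← hab, hbe]; ring
  haveI : Fact p.Prime := ⟨hp⟩
  -- nonresidue
  have hF : ringChar (ZMod p) ≠ 2 := by
    rw [ZMod.ringChar_zmod_n]; exact hp2
  obtain ⟨r, hr⟩ := FiniteField.exists_nonsquare hF
  have hrJ : jacobiSym (r.val : ℤ) p = -1 := by
    rw [ZMod.nonsquare_iff_jacobiSym_eq_neg_one]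
    simpa using hr
  have hcop : Nat.Coprime p (b' ^ 2 * a') := by
    rw [Nat.Prime.coprime_iff_not_dvd hp]
    intro hd
    rcases (Nat.Prime.dvd_mul hp).mp hd with hd | hd
    · exact hb' (hp.dvd_of_dvd_pow hd)
    · exact hpa' hd
  obtain ⟨m, hm1, hm2⟩ := Nat.chineseRemainder hcop r.val 1
  refine ⟨m, ?_⟩
  have h0 : b' ^ 2 * a' ≠ 0 := by
    intro h0
    rw [h0] at hn'
    simp at hn'
    omega
  rw [hn', jacobiSym.mul_right' _ (pow_ne_zero _ hp.ne_zero) h0, jacobiSym.pow_right]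
  have e1 : jacobiSym (m : ℤ) p = -1 := by
    rw [← hrJ]
    apply jacobiSym.mod_left'
    have := hm1
    unfold Nat.ModEq at this
    exact_mod_cast this
  have e2 : jacobiSym (m : ℤ) (b' ^ 2 * a') = 1 := by
    rw [← jacobiSym.one_left (b' ^ 2 * a')]
    apply jacobiSym.mod_left'
    have := hm2
    unfold Nat.ModEq at this
    exact_mod_cast this
  rw [e1, e2, mul_one]
  exact Odd.neg_one_pow ⟨e, rfl⟩

theorem spectrum (n : ℕ) :
    (∃ X ∈ (dfa 1).accepts, ∃ Y : List Bool,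
      X ++ [false, true] ++ Y = Y ++ [true, false] ++ X ∧ X.length + 2 = n) ↔
    (Odd n ∧ ¬ IsSquare n) := by
  constructor
  · rintro ⟨X, hX, Y, hs, hn⟩
    obtain ⟨h1, h2, h3, h4⟩ := (main 1 (by norm_num) n (Y.length + 2)).mp
      ⟨X, hX, Y, hs, hn, rfl⟩
    refine ⟨h1, ?_⟩
    rintro ⟨k, hk⟩
    have hk0 : k ≠ 0 := by
      rintro rfl
      omega
    rw [hk, jacobiSym.mul_right' _ hk0 hk0] at h4
    have : sg 1 = -1 := by simp [sg]
    rw [this] at h4
    nlinarith [mul_self_nonneg (jacobiSym ((Y.length + 2 : ℕ) : ℤ) k)]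
  · rintro ⟨h1, h2⟩
    obtain ⟨m, hm⟩ := exists_neg_one h1 h2
    have hn : 2 ≤ n := by
      by_contra hcon
      have : n = 1 := by
        have := h1.pos
        omega
      subst this
      exact h2 ⟨1, rfl⟩
    have hm2 : 2 ≤ m := by
      by_contra hcon
      have : m = 0 ∨ m = 1 := by omega
      rcases this with rfl | rfl
      · rw [Nat.cast_zero, jacobiSym.zero_left (by omega)] at hm
        omega
      · rw [Nat.cast_one, jacobiSym.one_left] at hm
        omega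
    obtain ⟨X, hX, Y, hs, hXn, _⟩ := (main 1 (by norm_num) n m).mpr
      ⟨h1, hn, hm2, by rw [hm]; simp [sg]⟩
    exact ⟨X, hX, Y, hs, hXn⟩

end Pool.Agent.WEq.Jac
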