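import Mathlib
import Pool.Agent.WEq.Basic

set_option autoImplicit false

/-! Linear length functionals along move sequences, and pumping. -/

namespace Pool.Agent.WEq

variable {α : Type*}

/-- value of a functional p(|X| + n) + q(|Y| + n) -/
def val (n : ℕ) (φ : ℤ × ℤ) (z : List α × List α) : ℤ :=
  φ.1 * ((z.1.length : ℤ) + n) + φ.2 * ((z.2.length : ℤ) + n)

def pull (b : Bool) (φ : ℤ × ℤ) : ℤ × ℤ := if b then (φ.1, φ.1 + φ.2) else (φ.1 + φ.2, φ.2)

def PL (π : List Bool) (φ : ℤ × ℤ) : ℤ × ℤ := π.foldr pull φ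

theorem val_mv {u v : List α} {n : ℕ} (hu : u.length = n) (hv : v.length = n) (b : Bool)
    (φ : ℤ × ℤ) (z : List α × List α) : val n φ (mv u v b z) = val n (pull b φ) z := by
  cases b <;> simp [val, mv, pull, hu, hv] <;> ring

theorem pos_run {u v : List α} {n : ℕ} (hu : u.length = n) (hv : v.length = n) (π : List Bool)
    (z : List α × List α) (hz : 1 ≤ z.1.length + n ∧ 1 ≤ z.2.length + n) :
    1 ≤ (run u v π z).1.length + n ∧ 1 ≤ (run u v π z).2.length + n := by
  induction π generalizing z with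
  | nil => exact hz
  | cons b π ih =>
    apply ih
    cases b <;> simp [mv] <;> omega

theorem val_run {u v : List α} {n : ℕ} (hu : u.length = n) (hv : v.length = n) (π : List Bool)
    (φ : ℤ × ℤ) (z : List α × List α) : val n φ (run u v π z) = val n (PL π φ) z := by
  induction π generalizing z with
  | nil => rfl
  | cons b π ih =>
    have : run u v (b :: π) z = run u v π (mv u v b z) := rfl
    rw [this, ih, val_mv hu hv]
    rfl

/-- bounded, or both coordinates nonnegative, or both nonpositive -/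
def Good (B : ℤ) (φ : ℤ × ℤ) : Prop :=
  (|φ.1| ≤ B ∧ |φ.2| ≤ B) ∨ (0 ≤ φ.1 ∧ 0 ≤ φ.2) ∨ (φ.1 ≤ 0 ∧ φ.2 ≤ 0)

theorem good_pull {B : ℤ} (b : Bool) {φ : ℤ × ℤ} (h : Good B φ) : Good B (pull b φ) := by
  obtain ⟨p, q⟩ := φ
  unfold Good at *
  simp only at h
  rcases h with ⟨h1, h2⟩ | ⟨h1, h2⟩ | ⟨h1, h2⟩
  · rw [abs_le] at h1 h2
    by_cases hp : 0 ≤ p <;> by_cases hq : 0 ≤ q
    · right; left
      cases b <;> simp [pull] <;> omega
    · left
      cases b <;> simp [pull, abs_le] <;> omega
    · left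
      cases b <;> simp [pull, abs_le] <;> omega
    · right; right
      cases b <;> simp [pull] <;> omega
  · right; left
    cases b <;> simp [pull] <;> omega
  · right; right
    cases b <;> simp [pull] <;> omega

theorem good_PL {B : ℤ} (π : List Bool) {φ : ℤ × ℤ} (h : Good B φ) : Good B (PL π φ) := by
  induction π with
  | nil => exact h
  | cons b π ih => exact good_pull b ih

/-- normal form: bounded pairs are kept, the others are sent to one of two corners -/
def cls (B : ℤ) (φ : ℤ × ℤ) : ℤ × ℤ :=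
  if |φ.1| ≤ B ∧ |φ.2| ≤ B then φ
  else if 0 ≤ φ.1 ∧ 0 ≤ φ.2 then (B + 1, B + 1) else (-(B + 1), -(B + 1))

theorem cls_bd {B : ℤ} (hB : 0 ≤ B) (φ : ℤ × ℤ) :
    |(cls B φ).1| ≤ B + 1 ∧ |(cls B φ).2| ≤ B + 1 := by
  unfold cls
  split_ifs with h1 h2
  · exact ⟨by omega, by omega⟩
  · simp only [abs_of_nonneg (show (0 : ℤ) ≤ B + 1 by omega)]
    exact ⟨le_rfl, le_rfl⟩
  · simp only [abs_neg, abs_of_nonneg (show (0 : ℤ) ≤ B + 1 by omega)]
    exact ⟨le_rfl, le_rfl⟩

/-- two functionals of the same class have values on the same side of every c with |c| ≤ B -/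
theorem sign_of_cls {B : ℤ} {n : ℕ} {φ ψ : ℤ × ℤ} (hφ : Good B φ) (hψ : Good B ψ)
    (h : cls B φ = cls B ψ) (z : List α × List α)
    (hn : 1 ≤ z.1.length + n ∧ 1 ≤ z.2.length + n) {c : ℤ} (hc : |c| ≤ B) :
    SignType.sign (val n φ z - c) = SignType.sign (val n ψ z - c) := by
  rw [abs_le] at hc
  have hL : (1 : ℤ) ≤ (z.1.length : ℤ) + n := by
    omega
  have hl : (1 : ℤ) ≤ (z.2.length : ℤ) + n := by
    omega
  have key : ∀ χ : ℤ × ℤ, Good B χ → ¬ (|χ.1| ≤ B ∧ |χ.2| ≤ B) →
      (0 ≤ χ.1 ∧ 0 ≤ χ.2 → B < val n χ z) ∧ (¬ (0 ≤ χ.1 ∧ 0 ≤ χ.2) → val n χ z < - B) := by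
    intro χ hg hb
    constructor
    · intro hp
      have : B < χ.1 + χ.2 := by
        by_contra hcon
        push Not at hcon
        apply hb
        rw [abs_le, abs_le]
        omega
      unfold val
      nlinarith [mul_nonneg hp.1 (sub_nonneg.mpr hL), mul_nonneg hp.2 (sub_nonneg.mpr hl)]
    · intro hp
      have hn' : χ.1 ≤ 0 ∧ χ.2 ≤ 0 := by
        rcases hg with h1 | h1 | h1
        · exact absurd h1 hb
        · exact absurd h1 hp
        · exact h1
      have : χ.1 + χ.2 < - B := by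
        by_contra hcon
        push Not at hcon
        apply hb
        rw [abs_le, abs_le]
        omega
      unfold val
      nlinarith [mul_nonneg (neg_nonneg.mpr hn'.1) (sub_nonneg.mpr hL),
        mul_nonneg (neg_nonneg.mpr hn'.2) (sub_nonneg.mpr hl)]
  by_cases h1 : |φ.1| ≤ B ∧ |φ.2| ≤ B
  · by_cases h2 : |ψ.1| ≤ B ∧ |ψ.2| ≤ B
    · have : φ = ψ := by
        unfold cls at h
        rw [if_pos h1, if_pos h2] at h
        exact h
      rw [this]
    · exfalso
      unfold cls at h
      rw [if_pos h1, if_neg h2] at h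
      rw [abs_le, abs_le] at h1
      split_ifs at h with h3
      · rw [h] at h1; simp at h1
      · rw [h] at h1; simp at h1
  · by_cases h2 : |ψ.1| ≤ B ∧ |ψ.2| ≤ B
    · exfalso
      unfold cls at h
      rw [if_neg h1, if_pos h2] at h
      rw [abs_le, abs_le] at h2
      split_ifs at h with h3
      · rw [← h] at h2; simp at h2
      · rw [← h] at h2; simp at h2
    · have k1 := key φ hφ h1
      have k2 := key ψ hψ h2
      have hB : 0 ≤ B := by omega
      unfold cls at h
      rw [if_neg h1, if_neg h2] at h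
      by_cases h3 : 0 ≤ φ.1 ∧ 0 ≤ φ.2
      · by_cases h4 : 0 ≤ ψ.1 ∧ 0 ≤ ψ.2
        · rw [sign_pos (by linarith [k1.1 h3]), sign_pos (by linarith [k2.1 h4])]
        · exfalso
          rw [if_pos h3, if_neg h4] at h
          have := congrArg Prod.fst h
          simp only at this
          omega
      · by_cases h4 : 0 ≤ ψ.1 ∧ 0 ≤ ψ.2
        · exfalso
          rw [if_neg h3, if_pos h4] at h
          have := congrArg Prod.fst h
          simp only at this
          omega
        · rw [sign_neg (by linarith [k1.2 h3]), sign_neg (by linarith [k2.2 h4])]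

end Pool.Agent.WEq
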