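import Mathlib
import Pool.Agent.WEq.Pump

set_option autoImplicit false

namespace Pool.Agent.WEq

variable {α : Type*}

def code (B : ℕ) (x : ℤ) : Fin (2 * B + 3) :=
  ⟨(x + (B + 1)).toNat % (2 * B + 3), Nat.mod_lt _ (by omega)⟩

theorem code_inj {B : ℕ} {x y : ℤ} (hx : |x| ≤ (B : ℤ) + 1) (hy : |y| ≤ (B : ℤ) + 1)
    (h : code B x = code B y) : x = y := by
  rw [abs_le] at hx hy
  have h1 := congrArg Fin.val h
  simp only [code] at h1
  rw [Nat.mod_eq_of_lt (by omega), Nat.mod_eq_of_lt (by omega)] at h1
  omega

section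

variable {F : Type*} [Mul F] (h : List α → F) (hm : ∀ x y, h (x ++ y) = h x * h y)

include hm in
theorem run_h (u v : List α) (π : List Bool) {z z' : List α × List α}
    (h1 : h z.1 = h z'.1) (h2 : h z.2 = h z'.2) :
    h (run u v π z).1 = h (run u v π z').1 ∧ h (run u v π z).2 = h (run u v π z').2 := by
  induction π generalizing z z' with
  | nil => exact ⟨h1, h2⟩
  | cons b π ih =>
    apply ih
    · cases b <;> simp [mv, hm, h1, h2]
    · cases b <;> simp [mv, hm, h1, h2]

/-- equal images under h and equal position of all the functionals with respect to all |c| ≤ B -/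
def Alike (B n : ℕ) {m : ℕ} (φ : Fin m → ℤ × ℤ) (z z' : List α × List α) : Prop :=
  h z.1 = h z'.1 ∧ h z.2 = h z'.2 ∧ ∀ (j : Fin m) (c : ℤ), |c| ≤ (B : ℤ) →
    SignType.sign (val n (φ j) z - c) = SignType.sign (val n (φ j) z' - c)

omit [Mul F] in
theorem Alike.trans {h : List α → F} {B n : ℕ} {m : ℕ} {φ : Fin m → ℤ × ℤ}
    {z z' z'' : List α × List α} (a : Alike h B n φ z z') (b : Alike h B n φ z' z'') :
    Alike h B n φ z z'' :=
  ⟨a.1.trans b.1, a.2.1.trans b.2.1, fun j c hc => (a.2.2 j c hc).trans (b.2.2 j c hc)⟩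

omit [Mul F] in
theorem Alike.rfl' {h : List α → F} {B n : ℕ} {m : ℕ} {φ : Fin m → ℤ × ℤ}
    {z : List α × List α} : Alike h B n φ z z :=
  ⟨rfl, rfl, fun _ _ _ => rfl⟩

include hm in
theorem pump_step [Fintype F] [DecidableEq F] {B n m : ℕ} {u v : List α}
    (hu : u.length = n) (hv : v.length = n) (φ : Fin m → ℤ × ℤ)
    (hφ : ∀ j, Good B (φ j)) (z : List α × List α)
    (hz : 1 ≤ z.1.length + n ∧ 1 ≤ z.2.length + n) (π : List Bool)
    (hπ : (Fintype.card F) ^ 2 * ((2 * B + 3) ^ 2) ^ m ≤ π.length) :
    ∃ π' : List Bool, π'.length < π.length ∧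
      Alike h B n φ (run u v π' z) (run u v π z) := by
  classical
  let S : Fin (π.length + 1) → (F × F) × (Fin m → Fin (2 * B + 3) × Fin (2 * B + 3)) :=
    fun i => ((h (run u v (π.take i) z).1, h (run u v (π.take i) z).2),
      fun j => (code B (cls B (PL (π.drop i) (φ j))).1, code B (cls B (PL (π.drop i) (φ j))).2))
  have hcard : Fintype.card ((F × F) × (Fin m → Fin (2 * B + 3) × Fin (2 * B + 3))) <
      Fintype.card (Fin (π.length + 1)) := by
    simp only [Fintype.card_prod, Fintype.card_fin, Fintype.card_pi, Finset.prod_const,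
      Finset.card_univ]
    calc _ = (Fintype.card F) ^ 2 * ((2 * B + 3) ^ 2) ^ m := by ring
      _ < _ := by omega
  obtain ⟨i, j, hij, hS⟩ := Fintype.exists_ne_map_eq_of_card_lt S hcard
  -- wlog i < j
  have main : ∀ i j : Fin (π.length + 1), i < j → S i = S j → ∃ π' : List Bool,
      π'.length < π.length ∧ Alike h B n φ (run u v π' z) (run u v π z) := by
    intro i j hij hS
    refine ⟨π.take i ++ π.drop j, ?_, ?_⟩
    · simp only [List.length_append, List.length_take, List.length_drop]
      have := i.2
      have := j.2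
      have : (i : ℕ) < j := hij
      omega
    · have e1 : h (run u v (π.take i) z).1 = h (run u v (π.take j) z).1 :=
        congrArg (fun s => s.1.1) hS
      have e2 : h (run u v (π.take i) z).2 = h (run u v (π.take j) z).2 :=
        congrArg (fun s => s.1.2) hS
      have e3 : ∀ t, cls B (PL (π.drop i) (φ t)) = cls B (PL (π.drop j) (φ t)) := by
        intro t
        have hBn : (0 : ℤ) ≤ (B : ℤ) := by positivity
        have a1 := cls_bd hBn (PL (π.drop i) (φ t))
        have a2 := cls_bd hBn (PL (π.drop j) (φ t))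
        have b1 : code B (cls B (PL (π.drop i) (φ t))).1 = code B (cls B (PL (π.drop j) (φ t))).1 :=
          congrArg (fun s => (s.2 t).1) hS
        have b2 : code B (cls B (PL (π.drop i) (φ t))).2 = code B (cls B (PL (π.drop j) (φ t))).2 :=
          congrArg (fun s => (s.2 t).2) hS
        exact Prod.ext (code_inj a1.1 a2.1 b1) (code_inj a1.2 a2.2 b2)
      have hsplit : π = π.take j ++ π.drop j := (List.take_append_drop _ _).symm
      have hsplit' : π = π.take i ++ π.drop i := (List.take_append_drop _ _).symm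
      have r1 : run u v (π.take i ++ π.drop j) z
          = run u v (π.drop j) (run u v (π.take i) z) := run_append _ _ _
      have r2 : run u v π z = run u v (π.drop j) (run u v (π.take j) z) := by
        conv_lhs => rw [hsplit]
        exact run_append _ _ _
      have r3 : run u v π z = run u v (π.drop i) (run u v (π.take i) z) := by
        conv_lhs => rw [hsplit']
        exact run_append _ _ _
      refine ⟨?_, ?_, ?_⟩
      · rw [r1, r2]; exact (run_h h hm u v (π.drop j) e1 e2).1
      · rw [r1, r2]; exact (run_h h hm u v (π.drop j) e1 e2).2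
      · intro t c hc
        rw [r1, r3, val_run hu hv (π.drop j) (φ t) (run u v (π.take i) z),
          val_run hu hv (π.drop i) (φ t) (run u v (π.take i) z)]
        exact sign_of_cls (good_PL _ (hφ t)) (good_PL _ (hφ t)) (e3 t).symm _
          (pos_run hu hv _ z hz) hc
  rcases lt_or_gt_of_ne hij with hlt | hlt
  · exact main i j hlt hS
  · exact main j i hlt hS.symm

include hm in
theorem pump [Fintype F] [DecidableEq F] {B n m : ℕ} {u v : List α}
    (hu : u.length = n) (hv : v.length = n) (φ : Fin m → ℤ × ℤ)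
    (hφ : ∀ j, Good B (φ j)) (z : List α × List α)
    (hz : 1 ≤ z.1.length + n ∧ 1 ≤ z.2.length + n) : ∀ (N : ℕ) (π : List Bool), π.length ≤ N →
    ∃ π' : List Bool, π'.length ≤ (Fintype.card F) ^ 2 * ((2 * B + 3) ^ 2) ^ m ∧
      Alike h B n φ (run u v π' z) (run u v π z) := by
  intro N
  induction N with
  | zero =>
    intro π hπ
    exact ⟨π, by omega, Alike.rfl'⟩
  | succ N ih =>
    intro π hπ
    by_cases hc : (Fintype.card F) ^ 2 * ((2 * B + 3) ^ 2) ^ m ≤ π.length
    · obtain ⟨π', h1, h2⟩ := pump_step h hm hu hv φ hφ z hz π hc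
      obtain ⟨π'', h3, h4⟩ := ih π' (by omega)
      exact ⟨π'', h3, h4.trans h2⟩
    · exact ⟨π, by omega, Alike.rfl'⟩

end

/-- lengths at most double with each move -/
theorem len_run {u v : List α} {n : ℕ} (hu : u.length = n) (hv : v.length = n) (π : List Bool)
    (z : List α × List α) :
    (run u v π z).1.length + (run u v π z).2.length + 2 * n ≤
      2 ^ π.length * (z.1.length + z.2.length + 2 * n) := by
  induction π generalizing z with
  | nil => simp [run]
  | cons b π ih =>
    have e : run u v (b :: π) z = run u v π (mv u v b z) := rfl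
    rw [e]
    refine (ih _).trans ?_
    have : (mv u v b z).1.length + (mv u v b z).2.length + 2 * n ≤
        2 * (z.1.length + z.2.length + 2 * n) := by
      cases b <;> simp [mv, hu, hv] <;> omega
    calc 2 ^ π.length * ((mv u v b z).1.length + (mv u v b z).2.length + 2 * n)
        ≤ 2 ^ π.length * (2 * (z.1.length + z.2.length + 2 * n)) := Nat.mul_le_mul_left _ this
      _ = _ := by rw [List.length_cons, pow_succ]; ring

end Pool.Agent.WEq
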