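import Mathlib
import Pool.Agent.WEq.Pigeon

set_option autoImplicit false

namespace Pool.Agent.WEq

variable {α : Type*}

section

variable {F : Type*} [Mul F] [Fintype F] (h : List α → F)
  (hm : ∀ x y, h (x ++ y) = h x * h y)

include hm

theorem shrink_word (M : ℕ) : ∀ (N : ℕ) (X : List α), X.length ≤ N →
    ∃ X' : List α, h X' = h X ∧ X'.length ≤ M + Fintype.card F ∧
      (X' = X ∨ (M < X'.length ∧ M < X.length)) := by
  intro N
  induction N with
  | zero =>
    intro X hX
    exact ⟨X, rfl, by omega, Or.inl rfl⟩
  | succ N ih =>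
    intro X hX
    by_cases hc : X.length ≤ M + Fintype.card F
    · exact ⟨X, rfl, hc, Or.inl rfl⟩
    · push Not at hc
      have hcard : Fintype.card F < Fintype.card (Fin (Fintype.card F + 1)) := by simp
      obtain ⟨i, j, hij, hS⟩ := Fintype.exists_ne_map_eq_of_card_lt
        (fun i : Fin (Fintype.card F + 1) => h (X.take i)) hcard
      have main : ∀ i j : Fin (Fintype.card F + 1), i < j → h (X.take i) = h (X.take j) →
          ∃ X' : List α, h X' = h X ∧ M < X'.length ∧ X'.length < X.length := by
        intro i j hij hS
        refine ⟨X.take i ++ X.drop j, ?_, ?_, ?_⟩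
        · rw [hm, hS, ← hm, List.take_append_drop]
        · simp only [List.length_append, List.length_take, List.length_drop]
          have := i.2
          have := j.2
          have : (i : ℕ) < j := hij
          omega
        · simp only [List.length_append, List.length_take, List.length_drop]
          have := i.2
          have := j.2
          have : (i : ℕ) < j := hij
          omega
      obtain ⟨X1, h1, h2, h3⟩ : ∃ X' : List α, h X' = h X ∧ M < X'.length ∧
          X'.length < X.length := by
        rcases lt_or_gt_of_ne hij with hlt | hlt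
        · exact main i j hlt hS
        · exact main j i hlt hS.symm
      obtain ⟨X2, h4, h5, h6⟩ := ih X1 (by omega)
      refine ⟨X2, h4.trans h1, h5, Or.inr ?_⟩
      rcases h6 with h6 | h6
      · rw [h6]; exact ⟨h2, by omega⟩
      · exact ⟨h6.1, by omega⟩

omit [Mul F] [Fintype F] hm in
theorem pw_add (g : List α) (s t : ℕ) : pw g (s + t) = pw g s ++ pw g t := by
  induction s with
  | zero => simp [pw]
  | succ s ih =>
    rw [Nat.succ_add]
    simp [pw, ih]

theorem shrink_pow (g : List α) (M : ℕ) : ∀ (N k : ℕ), k ≤ N →
    ∃ k' : ℕ, (∀ W, h (pw g k' ++ W) = h (pw g k ++ W)) ∧ k' ≤ M + Fintype.card F ∧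
      (k' = k ∨ (M < k' ∧ M < k)) := by
  intro N
  induction N with
  | zero =>
    intro k hk
    exact ⟨k, fun _ => rfl, by omega, Or.inl rfl⟩
  | succ N ih =>
    intro k hk
    by_cases hc : k ≤ M + Fintype.card F
    · exact ⟨k, fun _ => rfl, hc, Or.inl rfl⟩
    · push Not at hc
      have hcard : Fintype.card F < Fintype.card (Fin (Fintype.card F + 1)) := by simp
      obtain ⟨i, j, hij, hS⟩ := Fintype.exists_ne_map_eq_of_card_lt
        (fun i : Fin (Fintype.card F + 1) => h (pw g i)) hcard
      have main : ∀ i j : Fin (Fintype.card F + 1), i < j → h (pw g i) = h (pw g j) →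
          ∃ k' : ℕ, (∀ W, h (pw g k' ++ W) = h (pw g k ++ W)) ∧ M < k' ∧ k' < k := by
        intro i j hij hS
        have hi := i.2
        have hj := j.2
        have hlt : (i : ℕ) < j := hij
        refine ⟨i + (k - j), ?_, by omega, by omega⟩
        intro W
        have e : k = j + (k - j) := by omega
        rw [pw_add, List.append_assoc, hm, hS, ← hm]
        conv_rhs => rw [e, pw_add, List.append_assoc]
      obtain ⟨k1, h1, h2, h3⟩ : ∃ k' : ℕ, (∀ W, h (pw g k' ++ W) = h (pw g k ++ W)) ∧
          M < k' ∧ k' < k := by
        rcases lt_or_gt_of_ne hij with hlt | hlt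
        · exact main i j hlt hS
        · exact main j i hlt hS.symm
      obtain ⟨k2, h4, h5, h6⟩ := ih k1 (by omega)
      refine ⟨k2, fun W => (h4 W).trans (h1 W), h5, Or.inr ?_⟩
      rcases h6 with h6 | h6
      · rw [h6]; exact ⟨h2, by omega⟩
      · exact ⟨h6.1, by omega⟩

/-- shrink the base solution -/
theorem base_shrink {B n m : ℕ} (hn : 0 < n) {u v : List α}
    (hu : u.length = n) (hv : v.length = n) (φ : Fin m → ℤ × ℤ)
    (hφ : ∀ j, Good B (φ j)) (π : List Bool) (z : List α × List α) (hz : Base u v z) :
    ∃ z', Sol u v z'.1 z'.2 ∧ Alike h B n φ (run u v π z') (run u v π z) ∧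
      z'.1.length + z'.2.length + 2 * n ≤
        2 * n * ((6 * n + 1) * B + Fintype.card F + 3) := by
  rcases hz with ⟨h1, h2⟩ | ⟨g, k, Xb, Yb, h1, h2, h3, h4, h5, h6⟩
  · obtain ⟨X, Y⟩ := z
    simp only at h2
    subst h1 h2
    obtain ⟨X', a1, a2, a3⟩ := shrink_word h hm B X.length X le_rfl
    refine ⟨(X', X'), rfl, ⟨?_, ?_, ?_⟩, ?_⟩
    · exact (run_h h hm u u π (z := (X', X')) (z' := (X, X)) a1 a1).1
    · exact (run_h h hm u u π (z := (X', X')) (z' := (X, X)) a1 a1).2
    · intro j c hc
      rw [val_run hu hv, val_run hu hv]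
      rcases a3 with a3 | ⟨a3, a4⟩
      · rw [a3]
      · obtain ⟨P, Q⟩ := PL π (φ j)
        rw [abs_le] at hc
        have a3' : (B : ℤ) < X'.length := by exact_mod_cast a3
        have a4' : (B : ℤ) < X.length := by exact_mod_cast a4
        have e1 : val n (P, Q) (X', X') = (P + Q) * ((X'.length : ℤ) + n) := by
          simp only [val]; ring
        have e2 : val n (P, Q) (X, X) = (P + Q) * ((X.length : ℤ) + n) := by
          simp only [val]; ring
        have hn' : (0 : ℤ) < n := by exact_mod_cast hn
        rw [e1, e2]
        rcases lt_trichotomy (P + Q) 0 with hs | hs | hs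
        · rw [sign_neg (by nlinarith), sign_neg (by nlinarith)]
        · rw [hs]; simp
        · rw [sign_pos (by nlinarith), sign_pos (by nlinarith)]
    · simp only
      have : X'.length ≤ n * (B + Fintype.card F) := a2.trans (Nat.le_mul_of_pos_left _ hn)
      nlinarith [Nat.zero_le (n * (n * B))]
  · subst h1
    obtain ⟨k', a1, a2, a3⟩ := shrink_pow h hm g ((6 * n + 1) * B) k k le_rfl
    refine ⟨(pw g k' ++ Xb, pw g k' ++ Yb), h6 k', ⟨?_, ?_, ?_⟩, ?_⟩
    · exact (run_h h hm u v π (z := (pw g k' ++ Xb, pw g k' ++ Yb))
        (z' := (pw g k ++ Xb, pw g k ++ Yb)) (a1 Xb) (a1 Yb)).1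
    · exact (run_h h hm u v π (z := (pw g k' ++ Xb, pw g k' ++ Yb))
        (z' := (pw g k ++ Xb, pw g k ++ Yb)) (a1 Xb) (a1 Yb)).2
    · intro j c hc
      rw [val_run hu hv, val_run hu hv]
      rcases a3 with a3 | ⟨a3, a4⟩
      · rw [a3]
      · have hg := good_PL π (hφ j)
        generalize PL π (φ j) = ψ at hg ⊢
        obtain ⟨P, Q⟩ := ψ
        rw [abs_le] at hc
        have a3' : ((6 * n + 1) * B : ℤ) < k' := by exact_mod_cast a3
        have a4' : ((6 * n + 1) * B : ℤ) < k := by exact_mod_cast a4
        have e : ∀ i : ℕ, val n (P, Q) (pw g i ++ Xb, pw g i ++ Yb) =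
            (P + Q) * (i * g.length) + (P * (Xb.length + n) + Q * (Yb.length + n)) := by
          intro i
          simp only [val, List.length_append, pw_length, Nat.cast_add, Nat.cast_mul]
          ring
        rw [e, e]
        have hn' : (0 : ℤ) < n := by exact_mod_cast hn
        have hg' : (1 : ℤ) ≤ g.length := by exact_mod_cast h4
        have hX' : (Xb.length : ℤ) + n < 3 * n := by
          have : (Xb.length : ℤ) < 2 * n := by rw [← hu]; exact_mod_cast h2
          linarith
        have hY' : (Yb.length : ℤ) + n < 3 * n := by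
          have : (Yb.length : ℤ) < 2 * n := by rw [← hu]; exact_mod_cast h3
          linarith
        have hX0 : (0 : ℤ) < (Xb.length : ℤ) + n := by positivity
        have hY0 : (0 : ℤ) < (Yb.length : ℤ) + n := by positivity
        have hBn : (0 : ℤ) ≤ (B : ℤ) := by positivity
        have hkk : ∀ i : ℕ, ((6 * n + 1) * B : ℤ) < i → ((6 * n + 1) * B : ℤ) < i * g.length := by
          intro i hi
          have hi0 : (0 : ℤ) ≤ i := by positivity
          nlinarith
        have b3 := hkk k' a3'
        have b4 := hkk k a4'
        by_cases hb : |P| ≤ B ∧ |Q| ≤ B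
        · rw [abs_le, abs_le] at hb
          obtain ⟨⟨p1, p2⟩, q1, q2⟩ := hb
          have f1 : P * (Xb.length + n) ≤ B * (3 * n) := by
            calc P * (Xb.length + n) ≤ B * (Xb.length + n) := by
                  apply mul_le_mul_of_nonneg_right p2 hX0.le
              _ ≤ B * (3 * n) := by apply mul_le_mul_of_nonneg_left hX'.le hBn
          have f2 : -(B * (3 * n)) ≤ P * ((Xb.length : ℤ) + n) := by
            have : -P * (Xb.length + n) ≤ B * (3 * n) := by
              calc -P * (Xb.length + n) ≤ B * (Xb.length + n) := by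
                    apply mul_le_mul_of_nonneg_right (by linarith) hX0.le
                _ ≤ B * (3 * n) := by apply mul_le_mul_of_nonneg_left hX'.le hBn
            linarith
          have f3 : Q * (Yb.length + n) ≤ B * (3 * n) := by
            calc Q * (Yb.length + n) ≤ B * (Yb.length + n) := by
                  apply mul_le_mul_of_nonneg_right q2 hY0.le
              _ ≤ B * (3 * n) := by apply mul_le_mul_of_nonneg_left hY'.le hBn
          have f4 : -(B * (3 * n)) ≤ Q * ((Yb.length : ℤ) + n) := by
            have : -Q * (Yb.length + n) ≤ B * (3 * n) := by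
              calc -Q * (Yb.length + n) ≤ B * (Yb.length + n) := by
                    apply mul_le_mul_of_nonneg_right (by linarith) hY0.le
                _ ≤ B * (3 * n) := by apply mul_le_mul_of_nonneg_left hY'.le hBn
            linarith
          rcases lt_trichotomy (P + Q) 0 with hs | hs | hs
          · rw [sign_neg (by nlinarith), sign_neg (by nlinarith)]
          · rw [hs]; simp
          · rw [sign_pos (by nlinarith), sign_pos (by nlinarith)]
        · rcases hg with hg | ⟨p1, q1⟩ | ⟨p1, q1⟩
          · exact absurd hg hb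
          · simp only at p1 q1
            have hPQ : (B : ℤ) < P + Q := by
              by_contra hcon
              push Not at hcon
              apply hb
              rw [abs_le, abs_le]
              omega
            have g1 : P ≤ P * ((Xb.length : ℤ) + n) := by nlinarith
            have g2 : Q ≤ Q * ((Yb.length : ℤ) + n) := by nlinarith
            have g3 : ∀ i : ℕ, (0 : ℤ) ≤ (P + Q) * (i * g.length) := by
              intro i; positivity
            rw [sign_pos (by linarith [g3 k']), sign_pos (by linarith [g3 k])]
          · simp only at p1 q1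
            have hPQ : P + Q < - (B : ℤ) := by
              by_contra hcon
              push Not at hcon
              apply hb
              rw [abs_le, abs_le]
              omega
            have g1 : P * ((Xb.length : ℤ) + n) ≤ P := by nlinarith
            have g2 : Q * ((Yb.length : ℤ) + n) ≤ Q := by nlinarith
            have g3 : ∀ i : ℕ, (P + Q) * ((i : ℤ) * g.length) ≤ 0 := by
              intro i
              apply mul_nonpos_of_nonpos_of_nonneg (by linarith) (by positivity)
            rw [sign_neg (by linarith [g3 k']), sign_neg (by linarith [g3 k])]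
    · simp only [List.length_append, pw_length]
      have b1 : k' * g.length ≤ ((6 * n + 1) * B + Fintype.card F) * n :=
        Nat.mul_le_mul a2 (hu ▸ h5)
      rw [hu] at h2 h3
      nlinarith

/-- shrink a diagonal base pair of the commutation equation -/
theorem diag_shrink {B m : ℕ} (φ : Fin m → ℤ × ℤ)
    (π : List Bool) (T : List α) (hT : T ≠ []) :
    ∃ T' : List α, T' ≠ [] ∧ Alike h B 0 φ (run [] [] π (T', T')) (run [] [] π (T, T)) ∧
      T'.length ≤ B + Fintype.card F := by
  obtain ⟨X', a1, a2, a3⟩ := shrink_word h hm B T.length T le_rfl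
  refine ⟨X', ?_, ⟨?_, ?_, ?_⟩, a2⟩
  · rcases a3 with a3 | ⟨a3, a4⟩
    · rw [a3]; exact hT
    · rintro rfl
      simp at a3
  · exact (run_h h hm [] [] π (z := (X', X')) (z' := (T, T)) a1 a1).1
  · exact (run_h h hm [] [] π (z := (X', X')) (z' := (T, T)) a1 a1).2
  · intro j c hc
    rw [val_run (u := ([] : List α)) (v := []) (n := 0) rfl rfl π (φ j) (X', X'),
      val_run (u := ([] : List α)) (v := []) (n := 0) rfl rfl π (φ j) (T, T)]
    rcases a3 with a3 | ⟨a3, a4⟩
    · rw [a3]
    · obtain ⟨P, Q⟩ := PL π (φ j)
      rw [abs_le] at hc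
      have a3' : (B : ℤ) < X'.length := by exact_mod_cast a3
      have a4' : (B : ℤ) < T.length := by exact_mod_cast a4
      have e1 : val 0 (P, Q) (X', X') = (P + Q) * (X'.length : ℤ) := by
        simp only [val]; push_cast; ring
      have e2 : val 0 (P, Q) (T, T) = (P + Q) * (T.length : ℤ) := by
        simp only [val]; push_cast; ring
      rw [e1, e2]
      rcases lt_trichotomy (P + Q) 0 with hs | hs | hs
      · rw [sign_neg (by nlinarith), sign_neg (by nlinarith)]
      · rw [hs]; simp
      · rw [sign_pos (by nlinarith), sign_pos (by nlinarith)]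

omit [Mul F] [Fintype F] hm in
/-- structure of commuting pairs -/
theorem comm_struct : ∀ (N : ℕ) (X Y : List α), X.length + Y.length ≤ N →
    Sol [] [] X Y → X ≠ [] → Y ≠ [] → ∃ π T, T ≠ [] ∧ run [] [] π (T, T) = (X, Y) := by
  intro N
  induction N with
  | zero =>
    intro X Y hN h hX hY
    exact absurd (List.length_eq_zero_iff.mp (by omega)) hX
  | succ N ih =>
    intro X Y hN h hX hY
    have hXp : 0 < X.length := List.length_pos_iff.mpr hX
    have hYp : 0 < Y.length := List.length_pos_iff.mpr hY
    rcases lt_trichotomy X.length Y.length with hlt | heq | hgt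
    · obtain ⟨Y', hY', hs⟩ := descent' h (by simpa using hlt.le)
      have hl : Y.length = X.length + Y'.length := by rw [hY']; simp
      have hY0 : Y' ≠ [] := by
        rintro rfl
        simp at hl
        omega
      obtain ⟨π, T, hT, hr⟩ := ih X Y' (by omega) hs hX hY0
      refine ⟨π ++ [false], T, hT, ?_⟩
      rw [run_append, hr]
      simp [run, mv, hY']
    · have : X = Y := by
        have h0 : X ++ Y = Y ++ X := by simpa [Sol] using h
        exact (List.append_inj h0 heq).1
      subst this
      exact ⟨[], X, hX, rfl⟩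
    · obtain ⟨X', hX', hs⟩ := descent h (by simpa using hgt.le)
      have hl : X.length = Y.length + X'.length := by rw [hX']; simp
      have hX0 : X' ≠ [] := by
        rintro rfl
        simp at hl
        omega
      obtain ⟨π, T, hT, hr⟩ := ih X' Y (by omega) hs hX0 hY
      refine ⟨π ++ [true], T, hT, ?_⟩
      rw [run_append, hr]
      simp [run, mv, hX']

/-- one of the two words is empty, the other one arbitrary -/
theorem empty_shrink {B m : ℕ} (φ : Fin m → ℤ × ℤ) (T : List α) :
    ∃ T' : List α, h T' = h T ∧ T'.length ≤ B + Fintype.card F ∧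
      (∀ (j : Fin m) (c : ℤ), |c| ≤ (B : ℤ) →
        SignType.sign ((φ j).1 * (T'.length : ℤ) - c) = SignType.sign ((φ j).1 * (T.length : ℤ) - c) ∧
        SignType.sign ((φ j).2 * (T'.length : ℤ) - c) =
          SignType.sign ((φ j).2 * (T.length : ℤ) - c)) := by
  obtain ⟨X', a1, a2, a3⟩ := shrink_word h hm B T.length T le_rfl
  refine ⟨X', a1, a2, ?_⟩
  intro j c hc
  rcases a3 with a3 | ⟨a3, a4⟩
  · rw [a3]; exact ⟨rfl, rfl⟩
  · rw [abs_le] at hc
    have a3' : (B : ℤ) < X'.length := by exact_mod_cast a3
    have a4' : (B : ℤ) < T.length := by exact_mod_cast a4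
    have key : ∀ P : ℤ, SignType.sign (P * (X'.length : ℤ) - c) =
        SignType.sign (P * (T.length : ℤ) - c) := by
      intro P
      rcases lt_trichotomy P 0 with hs | hs | hs
      · rw [sign_neg (by nlinarith), sign_neg (by nlinarith)]
      · rw [hs]; simp
      · rw [sign_pos (by nlinarith), sign_pos (by nlinarith)]
    exact ⟨key _, key _⟩

/-- the bound of the small model theorem: n is the length of the constant words, f the number of
elements of the finite monoid, m the number of length constraints and B bounds their
coefficients -/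
def bound (n f m B : ℕ) : ℕ :=
  2 ^ (f ^ 2 * ((2 * B + 3) ^ 2) ^ m) * (2 * (n + 1) * ((6 * n + 1) * B + f + 3))

/-- **Small model theorem**, abstract form. -/
theorem small_model [DecidableEq F] {B m : ℕ} {u v : List α} (φ : Fin m → ℤ × ℤ)
    (hφ : ∀ j, Good B (φ j)) (X Y : List α) (hXY : Sol u v X Y) :
    ∃ X' Y', Sol u v X' Y' ∧ Alike h B u.length φ (X', Y') (X, Y) ∧
      X'.length + Y'.length ≤ bound u.length (Fintype.card F) m B := by
  have hv : v.length = u.length := (sol_len hXY).symm
  by_cases hu0 : u = []
  · subst hu0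
    have hv0 : v = [] := List.length_eq_zero_iff.mp (by simpa using hv)
    subst hv0
    simp only [List.length_nil]
    have hb : B + Fintype.card F ≤ bound 0 (Fintype.card F) m B := by
      unfold bound
      have : 1 ≤ 2 ^ ((Fintype.card F) ^ 2 * ((2 * B + 3) ^ 2) ^ m) := Nat.one_le_two_pow
      nlinarith
    by_cases hX : X = []
    · subst hX
      obtain ⟨T', t1, t2, t3⟩ := empty_shrink h hm (B := B) φ Y
      refine ⟨[], T', by simp [Sol], ⟨rfl, t1, ?_⟩, by simpa using t2.trans hb⟩
      intro j c hc
      simpa [val] using (t3 j c hc).2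
    · by_cases hY : Y = []
      · subst hY
        obtain ⟨T', t1, t2, t3⟩ := empty_shrink h hm (B := B) φ X
        refine ⟨T', [], by simp [Sol], ⟨t1, rfl, ?_⟩, by simpa using t2.trans hb⟩
        intro j c hc
        simpa [val] using (t3 j c hc).1
      · obtain ⟨π, T, hT, hr⟩ := comm_struct (X.length + Y.length) X Y le_rfl hXY hX hY
        have hTp : 1 ≤ T.length := List.length_pos_iff.mpr hT
        obtain ⟨π', p1, p2⟩ := pump h hm (u := []) (v := []) (n := 0) rfl rfl φ hφ (T, T)
          ⟨by simpa using hTp, by simpa using hTp⟩ π.length π le_rfl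
        obtain ⟨T', s0, s2, s3⟩ := diag_shrink h hm (B := B) φ π' T hT
        refine ⟨(run [] [] π' (T', T')).1, (run [] [] π' (T', T')).2,
          sol_run (z := (T', T')) π' rfl, ?_, ?_⟩
        · have := s2.trans p2
          rw [hr] at this
          exact this
        · have h1 := len_run (u := ([] : List α)) (v := []) (n := 0) rfl rfl π' (T', T')
          calc _ ≤ 2 ^ π'.length * (T'.length + T'.length + 2 * 0) := by simpa using h1
            _ ≤ bound 0 (Fintype.card F) m B := by
                unfold bound
                apply Nat.mul_le_mul (Nat.pow_le_pow_right (by norm_num) p1)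
                omega
  · have hn : 0 < u.length := List.length_pos_iff.mpr hu0
    obtain ⟨π, z, hz, hr⟩ := structure_thm hu0 (X.length + Y.length) X Y le_rfl hXY
    obtain ⟨π', p1, p2⟩ := pump h hm (n := u.length) rfl hv φ hφ z
      ⟨by omega, by omega⟩ π.length π le_rfl
    obtain ⟨z', s1, s2, s3⟩ := base_shrink h hm hn rfl hv φ hφ π' z hz
    refine ⟨(run u v π' z').1, (run u v π' z').2, sol_run π' s1, ?_, ?_⟩
    · have := s2.trans p2
      rw [hr] at this
      exact this
    · have h1 := len_run (n := u.length) rfl hv π' z'
      calc (run u v π' z').1.length + (run u v π' z').2.length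
          ≤ 2 ^ π'.length * (z'.1.length + z'.2.length + 2 * u.length) := by omega
        _ ≤ 2 ^ ((Fintype.card F) ^ 2 * ((2 * B + 3) ^ 2) ^ m) *
              (2 * u.length * ((6 * u.length + 1) * B + Fintype.card F + 3)) :=
            Nat.mul_le_mul (Nat.pow_le_pow_right (by norm_num) p1) s3
        _ ≤ bound u.length (Fintype.card F) m B := by
            unfold bound
            apply Nat.mul_le_mul_left
            apply Nat.mul_le_mul_right
            omega

end

end Pool.Agent.WEq
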